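import Pool.Agent.Run7.h259.BEC.Main1

/-!
# The spectral decomposition
-/

set_option autoImplicit false
set_option linter.unusedSectionVars false

noncomputable section

namespace Run7.h259.BEC

open Finset Matrix

variable {V : Type*} [Fintype V] [DecidableEq V]

/-- an orthonormal basis of eigenvectors -/
theorem exists_eigen (P : Matrix V V ℝ) (hP : ∀ x y, P x y = P y x) :
    ∃ (v : V → V → ℝ) (lam : V → ℝ),
      (∀ j k, ∑ x, v j x * v k x = if j = k then 1 else 0) ∧
      (∀ x y, ∑ j, v j x * v j y = if x = y then 1 else 0) ∧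
      (∀ j x, ∑ y, P x y * v j y = lam j * v j x) := by
  have hH : P.IsHermitian := by
    ext x y
    rw [Matrix.conjTranspose_apply, star_trivial, hP]
  set U : Matrix V V ℝ := (hH.eigenvectorUnitary : Matrix V V ℝ) with hU
  have h1 : star U * U = 1 := Matrix.UnitaryGroup.star_mul_self _
  have h2 : U * star U = 1 := (Matrix.mem_unitaryGroup_iff).1 hH.eigenvectorUnitary.2
  refine ⟨fun j x => U x j, hH.eigenvalues, ?_, ?_, ?_⟩
  · intro j k
    have h3 := congrFun (congrFun h1 j) k
    rw [Matrix.mul_apply, Matrix.one_apply] at h3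
    rw [← h3]
    refine sum_congr rfl fun x _ => ?_
    rw [Matrix.star_apply, star_trivial]
  · intro x y
    have h3 := congrFun (congrFun h2 x) y
    rw [Matrix.mul_apply, Matrix.one_apply] at h3
    rw [← h3]
    refine sum_congr rfl fun j _ => ?_
    rw [Matrix.star_apply, star_trivial]
  · intro j x
    have h3 := hH.mulVec_eigenvectorBasis j
    have h4 := congrFun h3 x
    have h5 : ∀ y, U y j = (hH.eigenvectorBasis j) y := fun y => hH.eigenvectorUnitary_apply y j
    simp only [h5]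
    simpa [Matrix.mulVec, dotProduct, Pi.smul_apply, smul_eq_mul] using h4

/-- the weight of an eigenvector -/
def wt (ψ : Finset V → ℝ) (v : V → ℝ) : ℝ := ∑ x, ∑ y, v x * v y * G ψ x y

lemma wt_nonneg (ψ : Finset V → ℝ) (v : V → ℝ) : 0 ≤ wt ψ v := by
  have h0 : 0 ≤ (∑ x, v x • a x ψ) ⬝ᵥ (∑ y, v y • a y ψ) := dot_self_nonneg _
  refine h0.trans (le_of_eq ?_)
  rw [sum_dotProduct]
  refine sum_congr rfl fun x _ => ?_
  rw [dotProduct_sum]
  refine sum_congr rfl fun y _ => ?_
  rw [smul_dotProduct, dotProduct_smul, smul_eq_mul, smul_eq_mul, G]; ring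

/-- a matrix which is diagonal in the basis `v` -/
theorem Gam_diag (ψ : Finset V → ℝ) (v : V → V → ℝ)
    (hv : ∀ x y, ∑ j, v j x * v j y = if x = y then 1 else 0) (Q : Matrix V V ℝ) (μ : V → ℝ)
    (hQ : ∀ j x, ∑ y, Q x y * v j y = μ j * v j x) : Gam ψ Q = ∑ j, μ j * wt ψ (v j) := by
  have h1 : ∀ x y, Q x y = ∑ j, μ j * (v j x * v j y) := by
    intro x y
    calc Q x y = ∑ z, Q x z * (if z = y then 1 else 0) := by simp
      _ = ∑ z, Q x z * ∑ j, v j z * v j y := by simp_rw [hv]
      _ = ∑ z, ∑ j, Q x z * v j z * v j y := by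
          refine sum_congr rfl fun z _ => ?_
          rw [mul_sum]; exact sum_congr rfl fun j _ => by ring
      _ = ∑ j, ∑ z, Q x z * v j z * v j y := sum_comm
      _ = ∑ j, μ j * (v j x * v j y) := by
          refine sum_congr rfl fun j _ => ?_
          rw [← sum_mul, hQ]; ring
  unfold Gam wt
  calc ∑ x, ∑ y, Q x y * G ψ x y = ∑ x, ∑ y, ∑ j, μ j * (v j x * v j y * G ψ x y) := by
        refine sum_congr rfl fun x _ => sum_congr rfl fun y _ => ?_
        rw [h1, sum_mul]; exact sum_congr rfl fun j _ => by ring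
    _ = ∑ x, ∑ j, ∑ y, μ j * (v j x * v j y * G ψ x y) := sum_congr rfl fun x _ => sum_comm
    _ = ∑ j, ∑ x, ∑ y, μ j * (v j x * v j y * G ψ x y) := sum_comm
    _ = ∑ j, μ j * ∑ x, ∑ y, v j x * v j y * G ψ x y := by
        refine sum_congr rfl fun j _ => ?_
        rw [mul_sum]; exact sum_congr rfl fun x _ => by rw [mul_sum]

lemma eig_mul (A B : Matrix V V ℝ) (v : V → ℝ) (a b : ℝ)
    (hA : ∀ x, ∑ y, A x y * v y = a * v x) (hB : ∀ x, ∑ y, B x y * v y = b * v x) (x : V) :
    ∑ y, (A * B) x y * v y = (a * b) * v x := by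
  simp only [Matrix.mul_apply]
  calc ∑ y, (∑ z, A x z * B z y) * v y = ∑ y, ∑ z, A x z * (B z y * v y) := by
        refine sum_congr rfl fun y _ => ?_
        rw [sum_mul]; exact sum_congr rfl fun z _ => by ring
    _ = ∑ z, ∑ y, A x z * (B z y * v y) := sum_comm
    _ = ∑ z, b * (A x z * v z) := by
        refine sum_congr rfl fun z _ => ?_
        rw [← mul_sum, hB]; ring
    _ = (a * b) * v x := by rw [← mul_sum, hA]; ring

/-- the scalar polynomial -/
def pp (t : ℝ) : ℝ := t / 2 + t ^ 2 / 8 + t ^ 3 / 16 + 5 * t ^ 4 / 16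

lemma eig_QQ (P : Matrix V V ℝ) (v : V → ℝ) (t : ℝ) (h : ∀ x, ∑ y, P x y * v y = t * v x) (x : V) :
    ∑ y, QQ P x y * v y = pp t * v x := by
  have h2 := eig_mul P P v t t h h
  have h3 := eig_mul P (P * P) v _ _ h h2
  have h4 := eig_mul P (P * (P * P)) v _ _ h h3
  unfold QQ RR pp
  simp only [Matrix.add_apply, Matrix.smul_apply, smul_eq_mul, add_mul, sum_add_distrib, mul_assoc]
  simp only [← mul_sum]
  have e1 := h x
  have e2 := h2 x
  have e3 := h3 x
  have e4 := h4 x
  simp only [← mul_assoc] at e2 e3 e4 ⊢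
  rw [e1]
  simp only [mul_assoc] at e2 e3 e4 ⊢
  rw [e2, e3, e4]
  ring

end Run7.h259.BEC
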