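import Pool.Agent.Run7.h259.BEC.Low2
import Pool.Agent.Run7.h259.BEC.Spec

/-!
# The cut-off
-/

set_option autoImplicit false
set_option linter.unusedSectionVars false

noncomputable section

namespace Run7.h259.BEC

open Finset Matrix

variable {V : Type*} [Fintype V] [DecidableEq V]

lemma entries_eq (v : V → V → ℝ)
    (hv : ∀ x y, ∑ j, v j x * v j y = if x = y then 1 else 0) (Q : Matrix V V ℝ) (μ : V → ℝ)
    (hQ : ∀ j x, ∑ y, Q x y * v j y = μ j * v j x) (x y : V) :
    Q x y = ∑ j, μ j * (v j x * v j y) := by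
  calc Q x y = ∑ z, Q x z * (if z = y then 1 else 0) := by simp
    _ = ∑ z, Q x z * ∑ j, v j z * v j y := by simp_rw [hv]
    _ = ∑ z, ∑ j, Q x z * v j z * v j y := by
        refine sum_congr rfl fun z _ => ?_
        rw [mul_sum]; exact sum_congr rfl fun j _ => by ring
    _ = ∑ j, ∑ z, Q x z * v j z * v j y := sum_comm
    _ = ∑ j, μ j * (v j x * v j y) := by
        refine sum_congr rfl fun j _ => ?_
        rw [← sum_mul, hQ]; ring

/-- synthesis is an isometry -/
lemma synth (v : V → V → ℝ) (h1 : ∀ j k, ∑ x, v j x * v k x = if j = k then 1 else 0)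
    (b : V → ℝ) : ∑ x, (∑ j, b j * v j x) ^ 2 = ∑ j, b j ^ 2 := by
  have e : ∀ x, (∑ j, b j * v j x) ^ 2 = ∑ j, ∑ k, b j * b k * (v j x * v k x) := by
    intro x
    rw [sq, sum_mul_sum]
    exact sum_congr rfl fun j _ => sum_congr rfl fun k _ => by ring
  simp_rw [e]
  rw [sum_comm]
  refine sum_congr rfl fun j _ => ?_
  rw [sum_comm]
  simp_rw [← mul_sum, h1]
  simp only [mul_ite, mul_one, mul_zero, sum_ite_eq, mem_univ, if_true]
  ring

/-- Parseval -/
lemma pars (v : V → V → ℝ) (h2 : ∀ x y, ∑ j, v j x * v j y = if x = y then 1 else 0)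
    (u : V → ℝ) : ∑ j, (∑ z, v j z * u z) ^ 2 = ∑ z, u z ^ 2 := by
  have e : ∀ j, (∑ z, v j z * u z) ^ 2 = ∑ x, ∑ y, u x * u y * (v j x * v j y) := by
    intro j
    rw [sq, sum_mul_sum]
    exact sum_congr rfl fun x _ => sum_congr rfl fun y _ => by ring
  simp_rw [e]
  rw [sum_comm]
  refine sum_congr rfl fun x _ => ?_
  rw [sum_comm]
  simp_rw [← mul_sum, h2]
  simp only [mul_ite, mul_one, mul_zero, sum_ite_eq, mem_univ, if_true]
  ring

/-- `f` is a cut-off of `P` -/
structure Cut (P : Matrix V V ℝ) (f : V → V → ℝ) (δ τ ν : ℝ) : Prop where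
  symm : ∀ x y, f x y = f y x
  diag : ∀ x, f x x = 0
  op : OpLe f δ
  near : ∀ x y, |P x y - f x y| ≤ τ
  sq : ∀ x, ∑ z, (P x z - f x z) ^ 2 ≤ ν

theorem exists_cut (P : Matrix V V ℝ) (hP : ∀ x y, P x y = P y x) (hd : ∀ x, P x x = 0)
    (θ : ℝ) (hθ : 0 ≤ θ) (h4 : ∀ x, (P * (P * (P * P))) x x ≤ θ) (δ : ℝ) (hδ : 0 < δ)
    (hτ : θ / δ ^ 3 ≤ δ) : ∃ f : V → V → ℝ, Cut P f (2 * δ) (θ / δ ^ 3) (θ / δ ^ 2) := by
  classical
  obtain ⟨v, lam, h1, h2, h3⟩ := exists_eigen P hP
  -- the fourth power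
  have hlam2 : ∀ j x, ∑ y, (P * P) x y * v j y = lam j * lam j * v j x :=
    fun j x => eig_mul P P (v j) _ _ (h3 j) (h3 j) x
  have hlam3 : ∀ j x, ∑ y, (P * (P * P)) x y * v j y = lam j * (lam j * lam j) * v j x :=
    fun j x => eig_mul P (P * P) (v j) _ _ (h3 j) (hlam2 j) x
  have hlam4 : ∀ j x, ∑ y, (P * (P * (P * P))) x y * v j y =
      lam j * (lam j * (lam j * lam j)) * v j x :=
    fun j x => eig_mul P (P * (P * P)) (v j) _ _ (h3 j) (hlam3 j) x
  have hfour : ∀ x, ∑ j, lam j ^ 4 * v j x ^ 2 ≤ θ := by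
    intro x
    have e := entries_eq v h2 (P * (P * (P * P))) (fun j => lam j * (lam j * (lam j * lam j)))
      hlam4 x x
    refine le_trans (le_of_eq ?_) (h4 x)
    rw [e]
    exact sum_congr rfl fun j _ => by ring
  have hPe : ∀ x y, P x y = ∑ j, lam j * (v j x * v j y) := fun x y => entries_eq v h2 P lam h3 x y
  set φ : V → ℝ := fun j => if |lam j| ≤ δ then lam j else 0 with hφ
  set χ : V → ℝ := fun j => if |lam j| ≤ δ then 0 else lam j with hχ
  have hsum : ∀ j, φ j + χ j = lam j := by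
    intro j; simp only [hφ, hχ]; split_ifs <;> ring
  have hφδ : ∀ j, φ j ^ 2 ≤ δ ^ 2 := by
    intro j
    simp only [hφ]
    split_ifs with h
    · rw [← sq_abs]; gcongr
    · rw [zero_pow two_ne_zero]; positivity
  have hχ1 : ∀ j, |χ j| ≤ lam j ^ 4 / δ ^ 3 := by
    intro j
    simp only [hχ]
    split_ifs with h
    · rw [abs_zero]; positivity
    · push Not at h
      rw [le_div_iff₀ (by positivity)]
      have e : lam j ^ 4 = |lam j| * |lam j| ^ 3 := by
        rw [← pow_succ', ← abs_pow]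
        exact (abs_of_nonneg (by positivity : (0 : ℝ) ≤ lam j ^ 4)).symm
      rw [e]; gcongr
  have hχ2 : ∀ j, χ j ^ 2 ≤ lam j ^ 4 / δ ^ 2 := by
    intro j
    simp only [hχ]
    split_ifs with h
    · rw [zero_pow two_ne_zero]; positivity
    · push Not at h
      rw [le_div_iff₀ (by positivity)]
      have e : lam j ^ 4 = lam j ^ 2 * |lam j| ^ 2 := by rw [sq_abs]; ring
      rw [e]; gcongr
  set fh : V → V → ℝ := fun x z => ∑ j, φ j * (v j x * v j z) with hfh
  set hh : V → V → ℝ := fun x z => ∑ j, χ j * (v j x * v j z) with hhh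
  have hPf : ∀ x z, P x z = fh x z + hh x z := by
    intro x z
    rw [hPe]
    simp only [hfh, hhh]
    rw [← sum_add_distrib]
    exact sum_congr rfl fun j _ => by rw [← hsum j]; ring
  have hhle : ∀ x z, |hh x z| ≤ θ / δ ^ 3 := by
    intro x z
    have e1 : |hh x z| ≤ ∑ j, (lam j ^ 4 * v j x ^ 2 + lam j ^ 4 * v j z ^ 2) / (2 * δ ^ 3) := by
      refine (abs_sum_le_sum_abs _ _).trans (sum_le_sum fun j _ => ?_)
      rw [abs_mul]
      have e2 : |v j x * v j z| ≤ (v j x ^ 2 + v j z ^ 2) / 2 := by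
        rw [abs_le]; constructor <;> nlinarith [sq_nonneg (v j x + v j z), sq_nonneg (v j x - v j z)]
      calc |χ j| * |v j x * v j z| ≤ lam j ^ 4 / δ ^ 3 * ((v j x ^ 2 + v j z ^ 2) / 2) :=
            mul_le_mul (hχ1 j) e2 (abs_nonneg _) (by positivity)
        _ = _ := by field_simp
    refine e1.trans ?_
    rw [← sum_div, sum_add_distrib, div_le_div_iff₀ (by positivity) (by positivity)]
    have := hfour x
    have := hfour z
    have h5 : (0 : ℝ) < δ ^ 3 := by positivity
    nlinarith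
  have hhsq : ∀ x, ∑ z, hh x z ^ 2 ≤ θ / δ ^ 2 := by
    intro x
    have e1 : ∑ z, hh x z ^ 2 = ∑ j, (χ j * v j x) ^ 2 := by
      rw [← synth v h1 (fun j => χ j * v j x)]
      refine sum_congr rfl fun z _ => ?_
      congr 1
      simp only [hhh]
      exact sum_congr rfl fun j _ => by ring
    rw [e1, le_div_iff₀ (by positivity)]
    refine le_trans ?_ (hfour x)
    rw [sum_mul]
    refine sum_le_sum fun j _ => ?_
    have e2 := hχ2 j
    rw [le_div_iff₀ (by positivity)] at e2
    rw [mul_pow]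
    calc χ j ^ 2 * v j x ^ 2 * δ ^ 2 = (χ j ^ 2 * δ ^ 2) * v j x ^ 2 := by ring
      _ ≤ lam j ^ 4 * v j x ^ 2 := mul_le_mul_of_nonneg_right e2 (sq_nonneg _)
  have hop : OpLe fh δ := by
    intro u
    have e1 : ∀ x, ∑ z, fh x z * u z = ∑ j, (φ j * ∑ z, v j z * u z) * v j x := by
      intro x
      simp only [hfh]
      simp_rw [sum_mul, mul_sum, sum_mul]
      rw [sum_comm]
      exact sum_congr rfl fun j _ => sum_congr rfl fun z _ => by ring
    simp_rw [e1]
    rw [synth v h1, ← pars v h2 u, mul_sum]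
    refine sum_le_sum fun j _ => ?_
    rw [mul_pow]
    exact mul_le_mul_of_nonneg_right (hφδ j) (sq_nonneg _)
  have hθ0 : 0 ≤ θ / δ ^ 3 := by positivity
  have hdg : ∀ x, |fh x x| ≤ δ := by
    intro x
    have e1 : fh x x = -hh x x := by have := hPf x x; rw [hd] at this; linarith
    rw [e1, abs_neg]
    exact (hhle x x).trans hτ
  have hfhs : ∀ x z, fh x z = fh z x := by
    intro x z
    simp only [hfh]
    exact sum_congr rfl fun j _ => by ring
  refine ⟨fun x z => if x = z then 0 else fh x z, ?_, ?_, ?_, ?_, ?_⟩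
  · intro x y
    by_cases h : x = y
    · subst h; rfl
    · simp only [if_neg h, if_neg (Ne.symm h)]; exact hfhs x y
  · intro x; simp
  · intro u
    have e1 : ∀ x, (∑ z, (if x = z then 0 else fh x z) * u z) ^ 2 ≤
        2 * (∑ z, fh x z * u z) ^ 2 + 2 * (δ ^ 2 * u x ^ 2) := by
      intro x
      have e2 : ∑ z, (if x = z then 0 else fh x z) * u z = ∑ z, fh x z * u z - fh x x * u x := by
        have : ∀ z, (if x = z then 0 else fh x z) * u z =
            fh x z * u z - if x = z then fh x z * u z else 0 := by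
          intro z; split_ifs <;> ring
        simp_rw [this]
        rw [sum_sub_distrib, sum_ite_eq, if_pos (mem_univ _)]
      rw [e2]
      have e3 : (fh x x * u x) ^ 2 ≤ δ ^ 2 * u x ^ 2 := by
        rw [mul_pow]
        refine mul_le_mul_of_nonneg_right ?_ (sq_nonneg _)
        rw [← sq_abs]
        have := hdg x
        gcongr
      nlinarith [sq_nonneg (∑ z, fh x z * u z + fh x x * u x)]
    refine (sum_le_sum fun x _ => e1 x).trans ?_
    rw [sum_add_distrib, ← mul_sum, ← mul_sum, ← mul_sum]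
    have := hop u
    have e4 : (2 * δ) ^ 2 * ∑ z, u z ^ 2 = 2 * (δ ^ 2 * ∑ z, u z ^ 2) + 2 * (δ ^ 2 * ∑ z, u z ^ 2) := by
      ring
    rw [e4]
    linarith
  · intro x y
    by_cases h : x = y
    · subst h; simp only [if_true, hd]; simpa using hθ0
    · simp only [if_neg h]
      have e1 : P x y - fh x y = hh x y := by have := hPf x y; linarith
      rw [e1]; exact hhle x y
  · intro x
    refine le_trans (sum_le_sum fun z _ => ?_) (hhsq x)
    by_cases h : x = z
    · subst h; simp only [if_true, hd]; simpa using sq_nonneg (hh x x)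
    · simp only [if_neg h]
      have e1 : P x z - fh x z = hh x z := by have := hPf x z; linarith
      rw [e1]

end Run7.h259.BEC
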