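import Pool.Agent.Run7.h259.BEC.Unif

/-!
# The spectral gap of the hopping matrix
-/

set_option autoImplicit false
set_option linter.unusedSectionVars false

noncomputable section

namespace Run7.h259.BEC

open Finset Matrix

/-- the Laplacian of the graph has the gap `g` -/
def Gap {V : Type} [Fintype V] (Gr : SimpleGraph V) [DecidableRel Gr.Adj] (g : ℝ) : Prop :=
  ∀ f : V → ℝ, g * ∑ x, (f x - (∑ y, f y) / Fintype.card V) ^ 2 ≤
    ∑ x, ∑ y, if Gr.Adj x y then (f y - f x) ^ 2 / 2 else 0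

lemma gap_P {V : Type} [Fintype V] [DecidableEq V] (Gr : SimpleGraph V) [DecidableRel Gr.Adj]
    (D c : ℕ) (h : Good Gr D c) (g : ℝ) (hg : Gap Gr g) (f : V → ℝ) (hf : ∑ x, f x = 0) :
    ∑ x, ∑ y, PP Gr D x y * f x * f y ≤ (1 - g / D) * ∑ x, f x ^ 2 := by
  have hD := h.D1
  have hD0 : (0 : ℝ) < D := by linarith
  have h1 := hg f
  rw [hf] at h1
  simp only [zero_div, sub_zero] at h1
  have h2 : ∑ x, ∑ y, (if Gr.Adj x y then (f y - f x) ^ 2 / 2 else 0) =
      D * (∑ x, f x ^ 2 - ∑ x, ∑ y, PP Gr D x y * f x * f y) := by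
    have e1 : ∀ x y, (if Gr.Adj x y then (f y - f x) ^ 2 / 2 else 0) =
        D * (PP Gr D x y * (f y ^ 2 / 2) + PP Gr D x y * (f x ^ 2 / 2) - PP Gr D x y * f x * f y) := by
      intro x y
      unfold PP
      split_ifs
      · field_simp; ring
      · ring
    simp_rw [e1, ← mul_sum, sum_sub_distrib, sum_add_distrib]
    congr 2
    have hcol : ∀ y, ∑ x, PP Gr D x y = 1 := by
      intro y; rw [← h.row y]; exact sum_congr rfl fun x _ => PP_symm x y
    rw [sum_comm (f := fun x y => PP Gr D x y * (f y ^ 2 / 2))]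
    simp_rw [← sum_mul, h.row, hcol, one_mul]
    rw [← sum_div]; ring
  rw [h2] at h1
  have h3 : g / D * ∑ x, f x ^ 2 ≤ ∑ x, f x ^ 2 - ∑ x, ∑ y, PP Gr D x y * f x * f y := by
    rw [div_mul_eq_mul_div, div_le_iff₀ hD0]; linarith
  linarith

end Run7.h259.BEC
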