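import Pool.Agent.Run7.h259.BEC.Glob

/-!
# The normalised adjacency matrix of a regular graph with small codegrees
-/

set_option autoImplicit false
set_option linter.unusedSectionVars false

noncomputable section

namespace Run7.h259.BEC

open Finset Matrix

variable {V : Type*} [Fintype V] [DecidableEq V]

/-- the normalised adjacency matrix -/
def PP (Gr : SimpleGraph V) [DecidableRel Gr.Adj] (D : ℕ) : Matrix V V ℝ :=
  fun x y => if Gr.Adj x y then 1 / (D : ℝ) else 0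

/-- regular of degree `D`, with at most `c` common neighbours of any two different points -/
structure Good (Gr : SimpleGraph V) [DecidableRel Gr.Adj] (D c : ℕ) : Prop where
  pos : 0 < D
  reg : ∀ x, (univ.filter fun y => Gr.Adj x y).card = D
  cod : ∀ x y, x ≠ y → (univ.filter fun z => Gr.Adj x z ∧ Gr.Adj y z).card ≤ c

variable {Gr : SimpleGraph V} [DecidableRel Gr.Adj] {D c : ℕ}

lemma PP_symm (x y : V) : PP Gr D x y = PP Gr D y x := by
  unfold PP; simp only [Gr.adj_comm]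

lemma PP_nonneg (x y : V) : 0 ≤ PP Gr D x y := by
  unfold PP; split_ifs <;> positivity

lemma PP_self (x : V) : PP Gr D x x = 0 := by
  unfold PP; simp

lemma Good.row (h : Good Gr D c) (x : V) : ∑ y, PP Gr D x y = 1 := by
  unfold PP
  rw [← sum_filter, sum_const, h.reg x, nsmul_eq_mul]
  have : (D : ℝ) ≠ 0 := by exact_mod_cast h.pos.ne'
  field_simp

lemma Good.le (h : Good Gr D c) (x y : V) : PP Gr D x y ≤ 1 / D := by
  unfold PP; split_ifs
  · exact le_rfl
  · positivity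

lemma PP_sq (x y : V) : PP Gr D x y ^ 2 = PP Gr D x y / D := by
  unfold PP; split_ifs <;> ring

lemma Good.two_self (h : Good Gr D c) (x : V) : (PP Gr D * PP Gr D) x x = 1 / D := by
  rw [Matrix.mul_apply]
  have : ∀ y, PP Gr D x y * PP Gr D y x = PP Gr D x y / D := by
    intro y; rw [PP_symm y x, ← sq, PP_sq]
  simp_rw [this]
  rw [← sum_div, h.row x]

lemma Good.two_le (h : Good Gr D c) (x y : V) (hxy : x ≠ y) :
    (PP Gr D * PP Gr D) x y ≤ c / (D : ℝ) ^ 2 := by
  rw [Matrix.mul_apply]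
  have : ∀ z, PP Gr D x z * PP Gr D z y = if Gr.Adj x z ∧ Gr.Adj y z then 1 / (D : ℝ) ^ 2 else 0 := by
    intro z
    rw [PP_symm z y]
    unfold PP
    by_cases h1 : Gr.Adj x z <;> by_cases h2 : Gr.Adj y z <;> simp [h1, h2]
    ring
  simp_rw [this]
  rw [← sum_filter, sum_const, nsmul_eq_mul, mul_one_div]
  have h1 : ((univ.filter fun z => Gr.Adj x z ∧ Gr.Adj y z).card : ℝ) ≤ c := by
    exact_mod_cast h.cod x y hxy
  gcongr

lemma Good.D1 (h : Good Gr D c) : (1 : ℝ) ≤ D := by exact_mod_cast h.pos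

lemma Good.three_le (h : Good Gr D c) (x y : V) :
    (PP Gr D * (PP Gr D * PP Gr D)) x y ≤ (1 + c) / (D : ℝ) ^ 2 := by
  rw [Matrix.mul_apply]
  have hD := h.D1
  have h1 : ∀ z, PP Gr D x z * (PP Gr D * PP Gr D) z y ≤
      PP Gr D x z * (c / (D : ℝ) ^ 2) + if z = y then 1 / (D : ℝ) ^ 2 else 0 := by
    intro z
    by_cases hz : z = y
    · rw [if_pos hz, hz, h.two_self y]
      have e1 := h.le x y
      have e2 : 0 ≤ PP Gr D x y * (c / (D : ℝ) ^ 2) := mul_nonneg (PP_nonneg _ _) (by positivity)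
      have e3 : PP Gr D x y * (1 / (D : ℝ)) ≤ 1 / (D : ℝ) * (1 / D) := by gcongr
      have e4 : 1 / (D : ℝ) * (1 / D) = 1 / (D : ℝ) ^ 2 := by field_simp
      linarith
    · rw [if_neg hz, add_zero]
      exact mul_le_mul_of_nonneg_left (h.two_le z y hz) (PP_nonneg _ _)
  refine (sum_le_sum fun z _ => h1 z).trans ?_
  rw [sum_add_distrib, ← sum_mul, h.row x, sum_ite_eq', if_pos (mem_univ _)]
  apply le_of_eq; ring

lemma mul_nonneg_entries (A B : Matrix V V ℝ) (hA : ∀ x y, 0 ≤ A x y) (hB : ∀ x y, 0 ≤ B x y)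
    (x y : V) : 0 ≤ (A * B) x y := by
  rw [Matrix.mul_apply]
  exact sum_nonneg fun z _ => mul_nonneg (hA _ _) (hB _ _)

lemma row_mul (A B : Matrix V V ℝ) (hA : ∀ x, ∑ y, A x y = 1) (hB : ∀ x, ∑ y, B x y = 1) (x : V) :
    ∑ y, (A * B) x y = 1 := by
  simp only [Matrix.mul_apply]
  rw [sum_comm]
  simp_rw [← mul_sum, hB, mul_one, hA]

lemma Good.four_le (h : Good Gr D c) (x y : V) :
    (PP Gr D * (PP Gr D * (PP Gr D * PP Gr D))) x y ≤ (1 + c) / (D : ℝ) ^ 2 := by
  rw [Matrix.mul_apply]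
  refine (sum_le_sum fun z _ => mul_le_mul_of_nonneg_left (h.three_le z y) (PP_nonneg x z)).trans ?_
  rw [← sum_mul, h.row x, one_mul]

/-- the remainder `P²/8 + P³/16 + 5 P⁴/16` -/
def RR (P : Matrix V V ℝ) : Matrix V V ℝ :=
  (1 / 8 : ℝ) • (P * P) + (1 / 16 : ℝ) • (P * (P * P)) + (5 / 16 : ℝ) • (P * (P * (P * P)))

/-- the polynomial `P/2 + P²/8 + P³/16 + 5 P⁴/16` -/
def QQ (P : Matrix V V ℝ) : Matrix V V ℝ := (1 / 2 : ℝ) • P + RR P

lemma mul_symm_entries (A B : Matrix V V ℝ) (hA : ∀ x y, A x y = A y x)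
    (hB : ∀ x y, B x y = B y x) (hAB : A * B = B * A) (x y : V) : (A * B) x y = (A * B) y x := by
  rw [Matrix.mul_apply, hAB, Matrix.mul_apply]
  exact sum_congr rfl fun z _ => by rw [hA x z, hB z y]; ring

lemma RR_symm (P : Matrix V V ℝ) (hP : ∀ x y, P x y = P y x) (x y : V) : RR P x y = RR P y x := by
  have h2 := mul_symm_entries P P hP hP rfl
  have h3 := mul_symm_entries P (P * P) hP h2 (by rw [Matrix.mul_assoc])
  have h4 := mul_symm_entries P (P * (P * P)) hP h3 (by simp only [Matrix.mul_assoc])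
  unfold RR
  simp only [Matrix.add_apply, Matrix.smul_apply, smul_eq_mul]
  rw [h2 x y, h3 x y, h4 x y]

lemma QQ_symm (P : Matrix V V ℝ) (hP : ∀ x y, P x y = P y x) (x y : V) : QQ P x y = QQ P y x := by
  unfold QQ
  simp only [Matrix.add_apply, Matrix.smul_apply, smul_eq_mul]
  rw [hP x y, RR_symm P hP x y]

lemma RR_nonneg (P : Matrix V V ℝ) (hP : ∀ x y, 0 ≤ P x y) (x y : V) : 0 ≤ RR P x y := by
  have h2 := mul_nonneg_entries P P hP hP
  have h3 := mul_nonneg_entries P (P * P) hP h2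
  have h4 := mul_nonneg_entries P (P * (P * P)) hP h3
  unfold RR
  simp only [Matrix.add_apply, Matrix.smul_apply, smul_eq_mul]
  have := h2 x y
  have := h3 x y
  have := h4 x y
  positivity

lemma RR_row (P : Matrix V V ℝ) (hP : ∀ x, ∑ y, P x y = 1) (x : V) : ∑ y, RR P x y = 1 / 2 := by
  have h2 := row_mul P P hP hP
  have h3 := row_mul P (P * P) hP h2
  have h4 := row_mul P (P * (P * P)) hP h3
  unfold RR
  simp only [Matrix.add_apply, Matrix.smul_apply, smul_eq_mul, sum_add_distrib, ← mul_sum]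
  rw [h2 x, h3 x, h4 x]; norm_num

lemma QQ_nonneg (P : Matrix V V ℝ) (hP : ∀ x y, 0 ≤ P x y) (x y : V) : 0 ≤ QQ P x y := by
  unfold QQ
  simp only [Matrix.add_apply, Matrix.smul_apply, smul_eq_mul]
  have := hP x y
  have := RR_nonneg P hP x y
  positivity

lemma QQ_row (P : Matrix V V ℝ) (hP : ∀ x, ∑ y, P x y = 1) (x : V) : ∑ y, QQ P x y = 1 := by
  unfold QQ
  simp only [Matrix.add_apply, Matrix.smul_apply, smul_eq_mul, sum_add_distrib, ← mul_sum]
  rw [hP x, RR_row P hP x]; norm_num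

lemma Good.RR_off (h : Good Gr D c) (x y : V) (hxy : x ≠ y) :
    RR (PP Gr D) x y ≤ (1 + c) / (D : ℝ) ^ 2 := by
  have h2 := h.two_le x y hxy
  have h3 := h.three_le x y
  have h4 := h.four_le x y
  have hD := h.D1
  unfold RR
  simp only [Matrix.add_apply, Matrix.smul_apply, smul_eq_mul]
  have h5 : (c : ℝ) / (D : ℝ) ^ 2 ≤ (1 + c) / (D : ℝ) ^ 2 := by gcongr; linarith
  have h6 : 0 ≤ (1 + (c : ℝ)) / (D : ℝ) ^ 2 := by positivity
  linarith

lemma Good.RR_diag (h : Good Gr D c) (x : V) :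
    1 / (8 * (D : ℝ)) ≤ RR (PP Gr D) x x ∧
      RR (PP Gr D) x x ≤ 1 / (8 * (D : ℝ)) + (1 + c) / (D : ℝ) ^ 2 := by
  have h2 := h.two_self x
  have h3 := h.three_le x x
  have h4 := h.four_le x x
  have hD := h.D1
  have h6 : 0 ≤ (1 + (c : ℝ)) / (D : ℝ) ^ 2 := by positivity
  have p2 := mul_nonneg_entries (PP Gr D) (PP Gr D) PP_nonneg PP_nonneg
  have p3 := mul_nonneg_entries (PP Gr D) _ PP_nonneg p2
  have p4 := mul_nonneg_entries (PP Gr D) _ PP_nonneg p3
  have := p3 x x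
  have := p4 x x
  unfold RR
  simp only [Matrix.add_apply, Matrix.smul_apply, smul_eq_mul]
  rw [h2]
  have e : (1 / 8 : ℝ) * (1 / D) = 1 / (8 * D) := by field_simp
  rw [e]
  constructor <;> linarith

end Run7.h259.BEC
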