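import Mathlib

/-!
# Hard-core bosons on a finite graph: definitions

A wave function of hard-core bosons on a finite set `V` of sites is a function `ψ : Finset V → ℂ`
of the set of the occupied sites.
-/

set_option autoImplicit false

noncomputable section

namespace Run7.h259.BEC

open Finset

variable {V : Type} [Fintype V] [DecidableEq V]

/-- the annihilation operator `a_x` -/
def ann (x : V) (ψ : Finset V → ℂ) (S : Finset V) : ℂ := if x ∈ S then 0 else ψ (insert x S)

/-- the one-particle density matrix, `γ(x, y) = ⟨a_x ψ, a_y ψ⟩` -/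
def gamma (ψ : Finset V → ℂ) (x y : V) : ℂ := ∑ S, (starRingEnd ℂ) (ann x ψ S) * ann y ψ S

/-- the number of particles in the condensate: the expectation value of `γ` in the constant
function of norm one -/
def condensate (ψ : Finset V → ℂ) : ℝ := (∑ x, ∑ y, (gamma ψ x y).re) / Fintype.card V

/-- the expectation value of the Hamiltonian `- ∑_{x ~ y} a_x† a_y + U` (the sum runs over the
ordered pairs of adjacent sites) -/
def energy (Gr : SimpleGraph V) [DecidableRel Gr.Adj] (U : Finset V → ℝ) (ψ : Finset V → ℂ) : ℝ :=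
  -(∑ x, ∑ y, if Gr.Adj x y then (gamma ψ x y).re else 0) + ∑ S, U S * ‖ψ S‖ ^ 2

/-- `ψ` is a state of `N` particles -/
def IsState (N : ℕ) (ψ : Finset V → ℂ) : Prop :=
  (∀ S, S.card ≠ N → ψ S = 0) ∧ ∑ S, ‖ψ S‖ ^ 2 = 1

/-- `U` is a repulsion of `N` particles, whose mean over the configurations is at most `w N` -/
def IsRepulsion (N : ℕ) (w : ℝ) (U : Finset V → ℝ) : Prop :=
  (∀ S, S.card = N → 0 ≤ U S) ∧
    ∑ S ∈ powersetCard N (univ : Finset V), U S ≤ w * N * (Fintype.card V).choose N

/-- the Laplacian of the graph has the gap `g` above the constant functions -/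
def HasGap (Gr : SimpleGraph V) [DecidableRel Gr.Adj] (g : ℝ) : Prop :=
  ∀ f : V → ℝ, g * ∑ x, (f x - (∑ y, f y) / Fintype.card V) ^ 2 ≤
    ∑ x, ∑ y, if Gr.Adj x y then (f y - f x) ^ 2 / 2 else 0

/-- the graph is regular of degree `D ≥ 1`, and two different sites have at most `c` common
neighbours -/
structure IsGraph (Gr : SimpleGraph V) [DecidableRel Gr.Adj] (D c : ℕ) : Prop where
  pos : 0 < D
  reg : ∀ x, (univ.filter fun y => Gr.Adj x y).card = D
  cod : ∀ x y, x ≠ y → (univ.filter fun z => Gr.Adj x z ∧ Gr.Adj y z).card ≤ c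

/-- `b` is an orthonormal basis of the space of `N` particles which diagonalises the Hamiltonian,
with the eigenvalues `E` -/
structure IsSpectral (Gr : SimpleGraph V) [DecidableRel Gr.Adj] (U : Finset V → ℝ) (N : ℕ) {m : ℕ}
    (b : Fin m → Finset V → ℂ) (E : Fin m → ℝ) : Prop where
  state : ∀ i, IsState N (b i)
  ortho : ∀ i j, i ≠ j → ∑ S, (starRingEnd ℂ) (b i S) * b j S = 0
  complete : ∀ φ : Finset V → ℂ, (∀ S, S.card ≠ N → φ S = 0) →
    ∑ S, ‖φ S‖ ^ 2 = ∑ i, ‖∑ S, (starRingEnd ℂ) (b i S) * φ S‖ ^ 2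
  diag : ∀ φ : Finset V → ℂ, (∀ S, S.card ≠ N → φ S = 0) →
    energy Gr U φ = ∑ i, E i * ‖∑ S, (starRingEnd ℂ) (b i S) * φ S‖ ^ 2

/-- the number of particles in the condensate in the Gibbs state at the temperature `T` -/
def gibbsCondensate {m : ℕ} (b : Fin m → Finset V → ℂ) (E : Fin m → ℝ) (T : ℝ) : ℝ :=
  (∑ i, Real.exp (-E i / T) * condensate (b i)) / ∑ i, Real.exp (-E i / T)

end Run7.h259.BEC
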