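import Pool.Agent.Run7.h259.BEC.GapP
import Pool.Agent.Run7.h259.BEC.Defs

/-!
# Complex wave functions, ground states and Gibbs states
-/

set_option autoImplicit false
set_option linter.unusedSectionVars false

noncomputable section

namespace Run7.h259.BEC

open Finset Matrix

variable {V : Type} [Fintype V] [DecidableEq V]

/-- real part -/
def rp (ψ : Finset V → ℂ) : Finset V → ℝ := fun S => (ψ S).re
/-- imaginary part -/
def ip (ψ : Finset V → ℂ) : Finset V → ℝ := fun S => (ψ S).im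

lemma gamma_re (ψ : Finset V → ℂ) (x y : V) :
    (gamma ψ x y).re = G (rp ψ) x y + G (ip ψ) x y := by
  unfold gamma G dotProduct
  rw [Complex.re_sum, ← sum_add_distrib]
  refine sum_congr rfl fun S _ => ?_
  rw [a_apply, a_apply, a_apply, a_apply]
  unfold ann rp ip
  by_cases hx : x ∈ S <;> by_cases hy : y ∈ S <;> simp [hx, hy]

lemma norm_sq_sum (ψ : Finset V → ℂ) : ∑ S, ‖ψ S‖ ^ 2 = rp ψ ⬝ᵥ rp ψ + ip ψ ⬝ᵥ ip ψ := by
  unfold dotProduct rp ip
  rw [← sum_add_distrib]
  refine sum_congr rfl fun S _ => ?_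
  rw [← Complex.normSq_eq_norm_sq, Complex.normSq_apply]

lemma condensate_eq (ψ : Finset V → ℂ) : condensate ψ = cond (rp ψ) + cond (ip ψ) := by
  unfold condensate cond
  simp_rw [gamma_re, sum_add_distrib]
  rw [add_div]

/-- the hopping term -/
def hop (Gr : SimpleGraph V) [DecidableRel Gr.Adj] (ψ : Finset V → ℂ) : ℝ :=
  ∑ x, ∑ y, if Gr.Adj x y then (gamma ψ x y).re else 0

lemma hop_eq (Gr : SimpleGraph V) [DecidableRel Gr.Adj] (D : ℕ) (hD : 0 < D) (ψ : Finset V → ℂ) :
    hop Gr ψ = D * (Gam (rp ψ) (PP Gr D) + Gam (ip ψ) (PP Gr D)) := by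
  unfold hop Gam
  rw [← sum_add_distrib, mul_sum]
  refine sum_congr rfl fun x _ => ?_
  rw [← sum_add_distrib, mul_sum]
  refine sum_congr rfl fun y _ => ?_
  rw [gamma_re]
  unfold PP
  have : (D : ℝ) ≠ 0 := by exact_mod_cast hD.ne'
  split_ifs
  · field_simp
  · ring

lemma IsGraph.good {Gr : SimpleGraph V} [DecidableRel Gr.Adj] {D c : ℕ} (h : IsGraph Gr D c) :
    Good Gr D c := ⟨h.pos, h.reg, h.cod⟩

lemma part_rp {N : ℕ} {ψ : Finset V → ℂ} (h : ∀ S, S.card ≠ N → ψ S = 0) : Part N (rp ψ) := by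
  intro S hS; unfold rp; rw [h S hS]; rfl

lemma part_ip {N : ℕ} {ψ : Finset V → ℂ} (h : ∀ S, S.card ≠ N → ψ S = 0) : Part N (ip ψ) := by
  intro S hS; unfold ip; rw [h S hS]; rfl

/-- the uniform state -/
def unifC (V : Type) [Fintype V] (N : ℕ) : Finset V → ℂ := fun S => (unif V N S : ℂ)

lemma rp_unifC (N : ℕ) : rp (unifC V N) = unif V N := by
  ext S; unfold rp unifC; simp

lemma ip_unifC (N : ℕ) : ip (unifC V N) = 0 := by
  ext S; unfold ip unifC; simp

lemma unifC_state (N : ℕ) (hN : N ≤ Fintype.card V) : IsState N (unifC V N) := by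
  refine ⟨fun S hS => ?_, ?_⟩
  · unfold unifC; rw [unif_part N S hS]; simp
  · rw [norm_sq_sum, rp_unifC, ip_unifC, unif_norm N hN]; simp

lemma G_zero (x y : V) : G (0 : Finset V → ℝ) x y = 0 := by
  unfold G; simp

/-- the energy of the uniform state -/
theorem energy_unif (Gr : SimpleGraph V) [DecidableRel Gr.Adj] (D c : ℕ) (hG : IsGraph Gr D c)
    (N : ℕ) (hN1 : 1 ≤ N) (hN : N ≤ Fintype.card V) (w : ℝ) (U : Finset V → ℝ)
    (hU : IsRepulsion N w U) :
    energy Gr U (unifC V N) ≤ -(D * (N * (1 - N / Fintype.card V))) + w * N := by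
  classical
  set n := Fintype.card V with hn
  have hn2 : 2 ≤ n := by
    have h0 : 0 < n := by omega
    obtain ⟨x⟩ : Nonempty V := Fintype.card_pos_iff.1 h0
    have h1 : 0 < (univ.filter fun y => Gr.Adj x y).card := by rw [hG.reg]; exact hG.pos
    obtain ⟨y, hy⟩ := card_pos.1 h1
    have hxy : x ≠ y := (mem_filter.1 hy).2.ne
    have h2 : ({x, y} : Finset V).card ≤ n := card_le_univ _
    rwa [card_pair hxy] at h2
  have hn0 : (0 : ℝ) < n := by exact_mod_cast (by omega : 0 < n)
  have hNn : (N : ℝ) ≤ n := by exact_mod_cast hN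
  have hγ : ∀ x y, (gamma (unifC V N) x y).re = G (unif V N) x y := by
    intro x y
    rw [gamma_re, rp_unifC, ip_unifC, G_zero, add_zero]
  unfold energy
  -- hopping
  have h1 : (D : ℝ) * (N * (1 - N / n)) ≤
      ∑ x, ∑ y, if Gr.Adj x y then (gamma (unifC V N) x y).re else 0 := by
    have e1 : ∀ x, (D : ℝ) * (N * (1 - N / n) / n) ≤
        ∑ y, if Gr.Adj x y then (gamma (unifC V N) x y).re else 0 := by
      intro x
      have e2 : (D : ℝ) * (N * (1 - N / n) / n) = ∑ y, if Gr.Adj x y then N * (1 - (N : ℝ) / n) / n else 0 := by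
        rw [← sum_filter, sum_const, hG.reg, nsmul_eq_mul]
      rw [e2]
      refine sum_le_sum fun y _ => ?_
      split_ifs with h
      · rw [hγ]; exact unif_G_ge N n hn hn2 hN1 hN x y h.ne
      · exact le_rfl
    have e3 : (D : ℝ) * (N * (1 - N / n)) = ∑ _x : V, (D : ℝ) * (N * (1 - N / n) / n) := by
      rw [sum_const, nsmul_eq_mul]
      have : ((univ : Finset V).card : ℝ) = n := rfl
      rw [this]; field_simp
    rw [e3]; exact sum_le_sum fun x _ => e1 x
  -- potential
  have h2 : ∑ S, U S * ‖unifC V N S‖ ^ 2 ≤ w * N := by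
    have hch : (0 : ℝ) < n.choose N := by exact_mod_cast Nat.choose_pos hN
    have e0 : ∀ S, U S * ‖unifC V N S‖ ^ 2 =
        if S ∈ powersetCard N (univ : Finset V) then U S / n.choose N else 0 := by
      intro S
      have e1 : ‖unifC V N S‖ ^ 2 = unif V N S ^ 2 := by
        unfold unifC
        rw [Complex.norm_real, Real.norm_eq_abs, sq_abs]
      rw [e1]
      by_cases hS : S.card = N
      · rw [if_pos (mem_powersetCard.2 ⟨subset_univ _, hS⟩)]
        have e2 : unif V N S ^ 2 = 1 / n.choose N := by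
          rw [sq, unif_mul, if_pos hS]
        rw [e2]; ring
      · rw [if_neg (fun h => hS (mem_powersetCard.1 h).2), unif_part N S hS]; simp
    simp_rw [e0]
    rw [sum_ite_mem, univ_inter, ← sum_div, div_le_iff₀ hch]
    exact hU.2
  linarith

/-- the excess energy bounds the loss of hopping -/
lemma hop_ge (Gr : SimpleGraph V) [DecidableRel Gr.Adj] (N : ℕ) (w : ℝ) (U : Finset V → ℝ)
    (hU : IsRepulsion N w U) (ψ : Finset V → ℂ) (hψ : ∀ S, S.card ≠ N → ψ S = 0) :
    -energy Gr U ψ ≤ hop Gr ψ := by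
  have h1 : 0 ≤ ∑ S, U S * ‖ψ S‖ ^ 2 := by
    refine sum_nonneg fun S _ => ?_
    by_cases hS : S.card = N
    · exact mul_nonneg (hU.1 S hS) (by positivity)
    · rw [hψ S hS]; simp
  unfold energy hop
  linarith

end Run7.h259.BEC
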