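import Pool.Agent.Run7.h259.BEC.Spec

/-!
# From the key inequality to the condensate
-/

set_option autoImplicit false
set_option linter.unusedSectionVars false

noncomputable section

namespace Run7.h259.BEC

open Finset Matrix

variable {V : Type*} [Fintype V] [DecidableEq V]

/-- `2 p - p² - t` -/
def qq (t : ℝ) : ℝ := 2 * pp t - pp t * pp t - t

lemma qq_eq (t : ℝ) : qq t = (1 - t) * t ^ 4 * ((140 + 56 * t + 35 * t ^ 2 + 25 * t ^ 3) / 256) := by
  unfold qq pp; ring

lemma bb_pos (t : ℝ) (h1 : -1 ≤ t) : 0 ≤ (140 + 56 * t + 35 * t ^ 2 + 25 * t ^ 3) / 256 := by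
  have e : 140 + 56 * t + 35 * t ^ 2 + 25 * t ^ 3 = (t + 1) * (25 * t ^ 2 + 10 * t + 46) + 94 := by
    ring
  rw [e]
  have h2 : 0 ≤ 25 * t ^ 2 + 10 * t + 46 := by nlinarith [sq_nonneg (5 * t + 1)]
  have h3 : 0 ≤ (t + 1) * (25 * t ^ 2 + 10 * t + 46) := mul_nonneg (by linarith) h2
  positivity

lemma qq_nonneg (t : ℝ) (h1 : -1 ≤ t) (h2 : t ≤ 1) : 0 ≤ qq t := by
  rw [qq_eq]
  have := bb_pos t h1
  have : 0 ≤ 1 - t := by linarith
  positivity

lemma real_step (t γ δ κ η : ℝ) (hγ0 : 0 < γ) (hγ : γ ≤ 1 / 16) (hκ : κ = (1 + δ) / γ)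
    (hδ0 : 0 < δ) (hδ : 1 ≤ (1 + δ) * (1 - 4 * γ)) (hη0 : 0 < η) (hη : 16 ≤ κ * η ^ 3)
    (h1 : -1 ≤ t) (h2 : t ≤ 1 - γ) : t ≤ κ * qq t + η := by
  have hκ0 : 0 < κ := by rw [hκ]; positivity
  have hq := qq_nonneg t h1 (by linarith)
  have hκq : 0 ≤ κ * qq t := mul_nonneg hκ0.le hq
  rcases le_or_gt t η with h3 | h3
  · linarith
  have ht0 : 0 < t := by linarith
  have hb : 140 / 256 ≤ (140 + 56 * t + 35 * t ^ 2 + 25 * t ^ 3) / 256 := by
    have : 0 ≤ 56 * t + 35 * t ^ 2 + 25 * t ^ 3 := by positivity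
    gcongr; linarith
  rcases le_or_gt t (7 / 8) with h4 | h4
  · -- middle range
    have e1 : 1 ≤ κ * ((1 - t) * t ^ 3 * ((140 + 56 * t + 35 * t ^ 2 + 25 * t ^ 3) / 256)) := by
      have h5 : η ^ 3 ≤ t ^ 3 := by gcongr
      have h6 : 1 / 8 * η ^ 3 * (1 / 2) ≤
          (1 - t) * t ^ 3 * ((140 + 56 * t + 35 * t ^ 2 + 25 * t ^ 3) / 256) := by
        have h7 : (1 : ℝ) / 8 ≤ 1 - t := by linarith
        have h8 : (1 : ℝ) / 2 ≤ (140 + 56 * t + 35 * t ^ 2 + 25 * t ^ 3) / 256 := by linarith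
        have h9 : 0 ≤ 1 - t := by linarith
        gcongr
      have h10 : κ * (1 / 8 * η ^ 3 * (1 / 2)) ≤
        κ * ((1 - t) * t ^ 3 * ((140 + 56 * t + 35 * t ^ 2 + 25 * t ^ 3) / 256)) :=
        mul_le_mul_of_nonneg_left h6 hκ0.le
      have h11 : κ * (1 / 8 * η ^ 3 * (1 / 2)) = κ * η ^ 3 / 16 := by ring
      rw [h11] at h10
      linarith
    have e2 : κ * qq t = t * (κ * ((1 - t) * t ^ 3 *
        ((140 + 56 * t + 35 * t ^ 2 + 25 * t ^ 3) / 256))) := by rw [qq_eq]; ring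
    have e3 : t * 1 ≤ κ * qq t := by
      rw [e2]; exact mul_le_mul_of_nonneg_left e1 ht0.le
    linarith
  · -- near one
    set u := 1 - t with hu
    have hu1 : γ ≤ u := by linarith
    have hu2 : u ≤ 1 / 8 := by linarith
    have hu0 : 0 < u := by linarith
    have htu : t = 1 - u := by linarith
    have e0 : 1 - 4 * u ≤ t ^ 3 * ((140 + 56 * t + 35 * t ^ 2 + 25 * t ^ 3) / 256) := by
      have h5 : 1 - 3 * u ≤ t ^ 3 := by
        rw [htu]; nlinarith [sq_nonneg u, mul_nonneg hu0.le (sq_nonneg u)]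
      have h6 : 1 - 201 / 256 * u ≤ (140 + 56 * t + 35 * t ^ 2 + 25 * t ^ 3) / 256 := by
        have h7 : 1 - 2 * u ≤ t ^ 2 := by rw [htu]; nlinarith [sq_nonneg u]
        have h8 : t = 1 - u := htu
        linarith
      have h7 : (1 - 3 * u) * (1 - 201 / 256 * u) ≤
          t ^ 3 * ((140 + 56 * t + 35 * t ^ 2 + 25 * t ^ 3) / 256) := by
        apply mul_le_mul h5 h6 (by linarith) (by positivity)
      nlinarith [sq_nonneg u]
    have e1 : 1 ≤ κ * (u * (t ^ 3 * ((140 + 56 * t + 35 * t ^ 2 + 25 * t ^ 3) / 256))) := by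
      have h5 : γ * (1 - 4 * γ) ≤ u * (1 - 4 * u) := by
        nlinarith [mul_nonneg (sub_nonneg.2 hu1) (by linarith : (0 : ℝ) ≤ 1 - 4 * (u + γ))]
      have h6 : u * (1 - 4 * u) ≤ u * (t ^ 3 * ((140 + 56 * t + 35 * t ^ 2 + 25 * t ^ 3) / 256)) :=
        mul_le_mul_of_nonneg_left e0 hu0.le
      have h7 : κ * (γ * (1 - 4 * γ)) = (1 + δ) * (1 - 4 * γ) := by
        rw [hκ]; field_simp
      have h8 : κ * (γ * (1 - 4 * γ)) ≤
        κ * (u * (t ^ 3 * ((140 + 56 * t + 35 * t ^ 2 + 25 * t ^ 3) / 256))) :=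
        mul_le_mul_of_nonneg_left (h5.trans h6) hκ0.le
      linarith
    have e2 : κ * qq t = t * (κ * (u * (t ^ 3 *
        ((140 + 56 * t + 35 * t ^ 2 + 25 * t ^ 3) / 256)))) := by rw [qq_eq, hu]; ring
    have e3 : t * 1 ≤ κ * qq t := by
      rw [e2]; exact mul_le_mul_of_nonneg_left e1 ht0.le
    linarith

/-- the number of particles in the condensate -/
def cond (ψ : Finset V → ℝ) : ℝ := (∑ x, ∑ y, G ψ x y) / Fintype.card V

/-- **The spectral step.** -/
theorem spectral_step [Nonempty V] (P : Matrix V V ℝ) (hP : ∀ x y, P x y = P y x)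
    (hP0 : ∀ x y, 0 ≤ P x y) (hrow : ∀ x, ∑ y, P x y = 1) (γ : ℝ) (hγ0 : 0 < γ)
    (hgap : ∀ f : V → ℝ, ∑ x, f x = 0 → ∑ x, ∑ y, P x y * f x * f y ≤ (1 - γ) * ∑ x, f x ^ 2)
    (ψ : Finset V → ℝ) (N : ℕ) (hN : Part N ψ)
    (κ η : ℝ) (hκ0 : 0 ≤ κ)
    (hr : ∀ t, -1 ≤ t → t ≤ 1 - γ → t ≤ κ * qq t + η) (hη0 : 0 ≤ η) :
    Gam ψ P ≤ cond ψ + κ * (2 * Gam ψ (QQ P) - Gam ψ (QQ P * QQ P) - Gam ψ P) +
      η * (N * (ψ ⬝ᵥ ψ)) := by
  classical
  obtain ⟨v, lam, h1, h2, h3⟩ := exists_eigen P hP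
  have hcol : ∀ y, ∑ x, P x y = 1 := by
    intro y; rw [← hrow y]; exact sum_congr rfl fun x _ => hP x y
  have hn : (0 : ℝ) < Fintype.card V := by exact_mod_cast Fintype.card_pos
  -- quadratic form of an eigenvector
  have hform : ∀ j, ∑ x, ∑ y, P x y * v j x * v j y = lam j := by
    intro j
    have : ∀ x, ∑ y, P x y * v j x * v j y = lam j * (v j x * v j x) := by
      intro x
      have e : ∀ y, P x y * v j x * v j y = v j x * (P x y * v j y) := by intro y; ring
      simp_rw [e]; rw [← mul_sum, h3]; ring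
    simp_rw [this]
    rw [← mul_sum, h1 j j, if_pos rfl, mul_one]
  have hone : ∀ j, ∑ x, v j x ^ 2 = 1 := by
    intro j
    have := h1 j j
    rw [if_pos rfl] at this
    rw [← this]; exact sum_congr rfl fun x _ => by ring
  have hle : ∀ j, lam j ≤ 1 ∧ -1 ≤ lam j := by
    intro j
    have e1 : ∑ x, ∑ y, P x y * ((v j x ^ 2 + v j y ^ 2) / 2) = 1 := by
      have : ∀ x y, P x y * ((v j x ^ 2 + v j y ^ 2) / 2) =
        P x y * (v j x ^ 2 / 2) + P x y * (v j y ^ 2 / 2) := by intro x y; ring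
      simp_rw [this, sum_add_distrib]
      rw [sum_comm (f := fun x y => P x y * (v j y ^ 2 / 2))]
      simp_rw [← sum_mul, hrow, hcol, one_mul, ← sum_div, hone]
      norm_num
    constructor
    · rw [← hform j, ← e1]
      refine sum_le_sum fun x _ => sum_le_sum fun y _ => ?_
      rw [mul_assoc]
      refine mul_le_mul_of_nonneg_left ?_ (hP0 x y)
      nlinarith [sq_nonneg (v j x - v j y)]
    · rw [← hform j, neg_le, ← e1, ← sum_neg_distrib]
      refine sum_le_sum fun x _ => ?_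
      rw [← sum_neg_distrib]
      refine sum_le_sum fun y _ => ?_
      rw [mul_assoc, ← mul_neg]
      refine mul_le_mul_of_nonneg_left ?_ (hP0 x y)
      nlinarith [sq_nonneg (v j x + v j y)]
  -- eigenvalues other than one
  have hne : ∀ j, lam j ≠ 1 → lam j ≤ 1 - γ := by
    intro j hj
    have e1 : ∑ x, v j x = lam j * ∑ x, v j x := by
      rw [mul_sum]
      simp_rw [← h3]
      rw [sum_comm]
      simp_rw [← sum_mul, hcol, one_mul]
    have e2 : ∑ x, v j x = 0 := by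
      have : (1 - lam j) * ∑ x, v j x = 0 := by linarith
      rcases mul_eq_zero.1 this with h | h
      · exact absurd (by linarith) hj
      · exact h
    have := hgap (v j) e2
    rw [hform, hone] at this
    linarith
  -- eigenvalue one
  have hconst : ∀ j, lam j = 1 → ∃ m : ℝ, ∀ x, v j x = m := by
    intro j hj
    set m := (∑ x, v j x) / Fintype.card V with hm
    refine ⟨m, ?_⟩
    have e1 : ∑ x, (v j x - m) = 0 := by
      rw [sum_sub_distrib, sum_const, nsmul_eq_mul, hm]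
      have : (univ : Finset V).card = Fintype.card V := rfl
      rw [this]; field_simp; ring
    have e2 : ∑ x, ∑ y, P x y * (v j x - m) * (v j y - m) = ∑ x, (v j x - m) ^ 2 := by
      refine sum_congr rfl fun x _ => ?_
      have e3 : ∀ y, P x y * (v j x - m) * (v j y - m) =
        (v j x - m) * (P x y * v j y) - (v j x - m) * m * P x y := by intro y; ring
      simp_rw [e3]
      rw [sum_sub_distrib, ← mul_sum, ← mul_sum, h3, hrow, hj]; ring
    have e4 := hgap (fun x => v j x - m) e1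
    rw [e2] at e4
    have e5 : 0 ≤ ∑ x, (v j x - m) ^ 2 := sum_nonneg fun _ _ => sq_nonneg _
    have e6 : ∑ x, (v j x - m) ^ 2 = 0 := by nlinarith
    intro x
    have e7 := (sum_eq_zero_iff_of_nonneg fun x _ => sq_nonneg (v j x - m)).1 e6 x (mem_univ x)
    have := pow_eq_zero_iff (two_ne_zero) |>.1 e7
    linarith
  have hwc : ∀ j, lam j = 1 → wt ψ (v j) = cond ψ := by
    intro j hj
    obtain ⟨m, hm⟩ := hconst j hj
    have e1 : m ^ 2 * Fintype.card V = 1 := by
      have := hone j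
      simp_rw [hm] at this
      rw [sum_const, nsmul_eq_mul] at this
      have h' : (univ : Finset V).card = Fintype.card V := rfl
      rw [h'] at this; linarith
    unfold wt cond
    simp_rw [hm]
    have e2 : ∑ x, ∑ y, m * m * G ψ x y = m ^ 2 * ∑ x, ∑ y, G ψ x y := by
      rw [mul_sum]
      refine sum_congr rfl fun x _ => ?_
      rw [mul_sum]
      exact sum_congr rfl fun y _ => by ring
    rw [e2, eq_div_iff hn.ne']
    calc m ^ 2 * (∑ x, ∑ y, G ψ x y) * Fintype.card V =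
        (m ^ 2 * Fintype.card V) * ∑ x, ∑ y, G ψ x y := by ring
      _ = ∑ x, ∑ y, G ψ x y := by rw [e1, one_mul]
  have huniq : ∀ j k, lam j = 1 → lam k = 1 → j = k := by
    intro j k hj hk
    by_contra hjk
    obtain ⟨m, hm⟩ := hconst j hj
    obtain ⟨m', hm'⟩ := hconst k hk
    have e0 := h1 j k
    rw [if_neg hjk] at e0
    simp_rw [hm, hm'] at e0
    have e1 := hone j
    have e2 := hone k
    simp_rw [hm] at e1
    simp_rw [hm'] at e2
    rw [sum_const, nsmul_eq_mul] at e0 e1 e2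
    have h' : ((univ : Finset V).card : ℝ) = Fintype.card V := rfl
    rw [h'] at e0 e1 e2
    have e3 : m * m' = 0 := by
      rcases mul_eq_zero.1 e0 with h | h
      · exact absurd h hn.ne'
      · exact h
    rcases mul_eq_zero.1 e3 with h | h
    · rw [h] at e1; norm_num at e1
    · rw [h] at e2; norm_num at e2
  have hcond0 : 0 ≤ cond ψ := by
    have e : cond ψ = wt ψ (fun _ => 1) / Fintype.card V := by
      unfold cond wt; simp
    rw [e]; exact div_nonneg (wt_nonneg _ _) hn.le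
  -- the decompositions
  have d1 : Gam ψ P = ∑ j, lam j * wt ψ (v j) := Gam_diag ψ v h2 P lam h3
  have d2 : Gam ψ (QQ P) = ∑ j, pp (lam j) * wt ψ (v j) :=
    Gam_diag ψ v h2 (QQ P) _ (fun j x => eig_QQ P (v j) (lam j) (h3 j) x)
  have d3 : Gam ψ (QQ P * QQ P) = ∑ j, (pp (lam j) * pp (lam j)) * wt ψ (v j) :=
    Gam_diag ψ v h2 (QQ P * QQ P) _ (fun j x => eig_mul (QQ P) (QQ P) (v j) _ _
      (eig_QQ P (v j) (lam j) (h3 j)) (eig_QQ P (v j) (lam j) (h3 j)) x)
  have d4 : N * (ψ ⬝ᵥ ψ) = ∑ j, wt ψ (v j) := by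
    have e := Gam_diag ψ v h2 (1 : Matrix V V ℝ) (fun _ => 1) (fun j x => by
      simp [Matrix.one_apply])
    simp only [one_mul] at e
    rw [← e, ← sum_G N ψ hN]
    unfold Gam
    refine sum_congr rfl fun x _ => ?_
    simp [Matrix.one_apply]
  have d5 : 2 * Gam ψ (QQ P) - Gam ψ (QQ P * QQ P) - Gam ψ P = ∑ j, qq (lam j) * wt ψ (v j) := by
    rw [d1, d2, d3, mul_sum, ← sum_sub_distrib, ← sum_sub_distrib]
    refine sum_congr rfl fun j _ => ?_
    unfold qq; ring
  rw [d5, d1, d4, mul_sum, mul_sum]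
  have hterm : ∀ j, lam j * wt ψ (v j) ≤ (if lam j = 1 then wt ψ (v j) else 0) +
      κ * (qq (lam j) * wt ψ (v j)) + η * wt ψ (v j) := by
    intro j
    have hw := wt_nonneg ψ (v j)
    by_cases hj : lam j = 1
    · rw [if_pos hj, hj]
      have := qq_nonneg 1 (by norm_num) le_rfl
      have : 0 ≤ κ * (qq 1 * wt ψ (v j)) := by positivity
      have : 0 ≤ η * wt ψ (v j) := by positivity
      linarith
    · rw [if_neg hj, zero_add]
      have h4 := hr (lam j) (hle j).2 (hne j hj)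
      have := mul_le_mul_of_nonneg_right h4 hw
      linarith
  refine (sum_le_sum fun j _ => hterm j).trans ?_
  rw [sum_add_distrib, sum_add_distrib]
  have hlast : ∑ j, (if lam j = 1 then wt ψ (v j) else 0) ≤ cond ψ := by
    by_cases hex : ∃ j, lam j = 1
    · obtain ⟨j0, hj0⟩ := hex
      have : ∀ j, (if lam j = 1 then wt ψ (v j) else 0) = if j = j0 then cond ψ else 0 := by
        intro j
        by_cases hj : j = j0
        · rw [if_pos hj, hj, if_pos hj0, hwc j0 hj0]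
        · rw [if_neg hj, if_neg fun h => hj (huniq j j0 h hj0)]
      simp_rw [this]
      rw [sum_ite_eq', if_pos (mem_univ _)]
    · push Not at hex
      simp only [hex, if_false, sum_const_zero]
      exact hcond0
  linarith

end Run7.h259.BEC
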