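import Pool.Agent.Run7.h259.BEC.Ops

/-!
# Summation over the sites
-/

set_option autoImplicit false
set_option linter.unusedSectionVars false

namespace Run7.h259.BEC

open Finset Matrix

variable {V : Type*} [Fintype V] [DecidableEq V]

/-- `ψ` is a function on the configurations of `N` particles -/
def Part (N : ℕ) (ψ : Finset V → ℝ) : Prop := ∀ S, S.card ≠ N → ψ S = 0

lemma sum_G (N : ℕ) (ψ : Finset V → ℝ) (h : Part N ψ) : ∑ x, G ψ x x = N * (ψ ⬝ᵥ ψ) := by
  have h1 : ∀ x, G ψ x x = ∑ S, if x ∈ S then ψ S * ψ S else 0 := by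
    intro x
    rw [G_self]
    unfold dotProduct
    refine sum_congr rfl fun S _ => ?_
    rw [nn_apply]; split_ifs <;> simp
  simp_rw [h1]
  rw [sum_comm]
  unfold dotProduct
  rw [mul_sum]
  refine sum_congr rfl fun S _ => ?_
  rw [← sum_filter, sum_const, nsmul_eq_mul]
  by_cases hS : S.card = N
  · rw [← hS]; congr 2; simp
  · rw [h S hS]; simp

lemma sum_K2 (N : ℕ) (ψ : Finset V → ℝ) (h : Part N ψ) (x : V) :
    ∑ y, K2 ψ x y = N * G ψ x x := by
  have h1 : ∀ y, K2 ψ x y = ∑ S, if y ∈ S then (if x ∈ S then ψ S * ψ S else 0) else 0 := by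
    intro y
    unfold K2 dotProduct
    refine sum_congr rfl fun S _ => ?_
    rw [nn_apply, nn_apply]
    by_cases hx : x ∈ S <;> by_cases hy : y ∈ S <;> simp [hx, hy]
  simp_rw [h1]
  rw [sum_comm, G_self]
  unfold dotProduct
  rw [mul_sum]
  refine sum_congr rfl fun S _ => ?_
  rw [← sum_filter, sum_const, nsmul_eq_mul, nn_apply]
  by_cases hS : S.card = N
  · have h2 : ((univ.filter fun y => y ∈ S).card : ℝ) = N := by
      rw [← hS]; congr 2; simp
    rw [h2]; split_ifs <;> simp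
  · rw [h S hS]; simp

/-- `∑ Q(x,y) γ(x,y)` -/
def Gam (ψ : Finset V → ℝ) (Q : Matrix V V ℝ) : ℝ := ∑ x, ∑ y, Q x y * G ψ x y

lemma Gam_smul (ψ : Finset V → ℝ) (c : ℝ) (Q : Matrix V V ℝ) : Gam ψ (c • Q) = c * Gam ψ Q := by
  unfold Gam
  simp only [Matrix.smul_apply, smul_eq_mul, mul_sum, mul_assoc]

lemma Gam_mul (ψ : Finset V → ℝ) (Q : Matrix V V ℝ) (hQ : ∀ x y, Q x y = Q y x) :
    Gam ψ (Q * Q) = ∑ x, ∑ y, ∑ z, Q x y * Q x z * G ψ y z := by
  unfold Gam
  simp only [Matrix.mul_apply]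
  have h1 : ∀ x y, (∑ j, Q x j * Q j y) * G ψ x y = ∑ j, Q j x * Q j y * G ψ x y := by
    intro x y
    rw [sum_mul]
    exact sum_congr rfl fun j _ => by rw [hQ x j]
  simp_rw [h1]
  calc ∑ x, ∑ y, ∑ j, Q j x * Q j y * G ψ x y = ∑ x, ∑ j, ∑ y, Q j x * Q j y * G ψ x y :=
        sum_congr rfl fun x _ => sum_comm
    _ = ∑ j, ∑ x, ∑ y, Q j x * Q j y * G ψ x y := sum_comm

/-- **The sum-of-squares inequality for a symmetric matrix.** -/
theorem glob (ψ : Finset V → ℝ) (N : ℕ) (h : Part N ψ) (Q : Matrix V V ℝ)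
    (hQ : ∀ x y, Q x y = Q y x) (ρ : ℝ) :
    0 ≤ ((1 - ρ) ^ 2 * N + ρ ^ 2 * (Fintype.card V - N)) * (ψ ⬝ᵥ ψ) -
      2 * (Gam ψ Q - ∑ x, Q x x * G ψ x x) + Gam ψ (Q * Q) -
      2 * ∑ x, Q x x * ∑ y, Q x y * G ψ x y + ∑ x, Q x x ^ 2 * G ψ x x +
      ∑ x, ∑ y, (if y = x then 0 else Q x y) ^ 2 * (G ψ x x - 2 * K2 ψ x y) := by
  have hs := fun x => site ψ x (fun y => if y = x then 0 else Q x y) (by simp) ρ
  have h1 : ∀ x, ∑ y, (if y = x then 0 else Q x y) * G ψ x y =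
      ∑ y, Q x y * G ψ x y - Q x x * G ψ x x := by
    intro x
    have : ∀ y, (if y = x then 0 else Q x y) * G ψ x y =
        Q x y * G ψ x y - if y = x then Q x y * G ψ x y else 0 := by
      intro y; split_ifs <;> ring
    simp_rw [this]
    rw [sum_sub_distrib, sum_ite_eq', if_pos (mem_univ _)]
  have h2 : ∀ x, ∑ y, ∑ z, (if y = x then 0 else Q x y) * (if z = x then 0 else Q x z) * G ψ y z =
      ∑ y, ∑ z, Q x y * Q x z * G ψ y z - 2 * (Q x x * ∑ y, Q x y * G ψ x y) +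
        Q x x ^ 2 * G ψ x x := by
    intro x
    have e1 : ∀ y, ∑ z, (if y = x then 0 else Q x y) * (if z = x then 0 else Q x z) * G ψ y z =
        (if y = x then 0 else Q x y) * (∑ z, Q x z * G ψ y z - Q x x * G ψ y x) := by
      intro y
      have : ∀ z, (if y = x then 0 else Q x y) * (if z = x then 0 else Q x z) * G ψ y z =
        (if y = x then 0 else Q x y) * (Q x z * G ψ y z - if z = x then Q x z * G ψ y z else 0) := by
        intro z; split_ifs <;> ring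
      simp_rw [this]
      rw [← mul_sum, sum_sub_distrib, sum_ite_eq', if_pos (mem_univ _)]
    simp_rw [e1]
    have e2 : ∀ y, (if y = x then 0 else Q x y) * (∑ z, Q x z * G ψ y z - Q x x * G ψ y x) =
        Q x y * (∑ z, Q x z * G ψ y z - Q x x * G ψ y x) -
          if y = x then Q x y * (∑ z, Q x z * G ψ y z - Q x x * G ψ y x) else 0 := by
      intro y; split_ifs <;> ring
    simp_rw [e2]
    rw [sum_sub_distrib, sum_ite_eq', if_pos (mem_univ _)]
    simp_rw [mul_sub]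
    rw [sum_sub_distrib]
    have e3 : ∑ y, Q x y * ∑ z, Q x z * G ψ y z = ∑ y, ∑ z, Q x y * Q x z * G ψ y z := by
      refine sum_congr rfl fun y _ => ?_
      rw [mul_sum]
      exact sum_congr rfl fun z _ => by ring
    have e4 : ∑ y, Q x y * (Q x x * G ψ y x) = Q x x * ∑ y, Q x y * G ψ x y := by
      rw [mul_sum]
      refine sum_congr rfl fun y _ => ?_
      rw [G_comm ψ y x]; ring
    rw [e3, e4]
    ring
  have h3 : 0 ≤ ∑ x, ((1 - ρ) ^ 2 * G ψ x x + ρ ^ 2 * (ψ ⬝ᵥ ψ - G ψ x x) -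
      2 * (∑ y, Q x y * G ψ x y - Q x x * G ψ x x) +
      (∑ y, ∑ z, Q x y * Q x z * G ψ y z - 2 * (Q x x * ∑ y, Q x y * G ψ x y) +
        Q x x ^ 2 * G ψ x x) +
      ∑ y, (if y = x then 0 else Q x y) ^ 2 * (G ψ x x - 2 * K2 ψ x y)) := by
    refine sum_nonneg fun x _ => ?_
    have := hs x
    simp only [h1, h2] at this
    exact this
  simp only [sum_add_distrib, sum_sub_distrib, ← mul_sum] at h3
  rw [sum_G N ψ h] at h3
  rw [Gam_mul ψ Q hQ]
  have h4 : ∑ x : V, ψ ⬝ᵥ ψ = Fintype.card V * (ψ ⬝ᵥ ψ) := by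
    rw [sum_const, nsmul_eq_mul]; rfl
  rw [h4] at h3
  unfold Gam
  refine h3.trans (le_of_eq ?_)
  ring

end Run7.h259.BEC
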