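import Pool.Agent.Run7.h259.BEC.Graph

/-!
# The key inequality
-/

set_option autoImplicit false
set_option linter.unusedSectionVars false

noncomputable section

namespace Run7.h259.BEC

open Finset Matrix

variable {V : Type*} [Fintype V] [DecidableEq V]
variable {Gr : SimpleGraph V} [DecidableRel Gr.Adj] {D c : ℕ}

/-- neighbouring pairs of particles -/
def kap (ψ : Finset V → ℝ) (P : Matrix V V ℝ) : ℝ := ∑ x, ∑ y, P x y * K2 ψ x y

/-- second moment of the number of particles next to a site -/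
def V2 (ψ : Finset V → ℝ) (P : Matrix V V ℝ) : ℝ := ∑ x, ∑ y, ∑ z, P x y * P x z * K2 ψ y z

lemma comm_sum (h : Good Gr D c) (ψ : Finset V → ℝ) (N : ℕ) (hN : Part N ψ) :
    ∑ x, ∑ y, PP Gr D x y / D * (G ψ x x - 2 * K2 ψ x y) =
      (N * (ψ ⬝ᵥ ψ) - 2 * kap ψ (PP Gr D)) / D := by
  have h1 : ∀ x, ∑ y, PP Gr D x y / D * (G ψ x x - 2 * K2 ψ x y) =
      (G ψ x x - 2 * ∑ y, PP Gr D x y * K2 ψ x y) / D := by
    intro x
    have : ∀ y, PP Gr D x y / D * (G ψ x x - 2 * K2 ψ x y) =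
        (PP Gr D x y * G ψ x x) / D - 2 * (PP Gr D x y * K2 ψ x y) / D := by intro y; ring
    simp_rw [this]
    rw [sum_sub_distrib, ← sum_div, ← sum_mul, h.row x, one_mul, ← sum_div, ← mul_sum]
    ring
  simp_rw [h1]
  rw [← sum_div, sum_sub_distrib, sum_G N ψ hN, ← mul_sum]
  rfl

/-- lower bound for the second moment -/
theorem second (h : Good Gr D c) (ψ : Finset V → ℝ) (N : ℕ) (hN : Part N ψ) (ρ : ℝ)
    (hρ : ρ * Fintype.card V = N) :
    2 * Gam ψ (PP Gr D) - N * (1 - ρ) * (ψ ⬝ᵥ ψ) - (N * (ψ ⬝ᵥ ψ) - 2 * kap ψ (PP Gr D)) / D ≤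
      Gam ψ (PP Gr D * PP Gr D) := by
  have g := glob ψ N hN (PP Gr D) PP_symm ρ
  have h1 : ((1 - ρ) ^ 2 * N + ρ ^ 2 * (Fintype.card V - N)) = N * (1 - ρ) := by
    rw [← hρ]; ring
  have h2 : ∀ x y, (if y = x then 0 else PP Gr D x y) ^ 2 * (G ψ x x - 2 * K2 ψ x y) =
      PP Gr D x y / D * (G ψ x x - 2 * K2 ψ x y) := by
    intro x y
    by_cases hxy : y = x
    · subst hxy; rw [if_pos rfl, PP_self]; ring
    · rw [if_neg hxy, PP_sq]
  simp_rw [h2] at g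
  rw [comm_sum h ψ N hN, h1] at g
  simp only [PP_self] at g
  simp at g
  linarith

/-- upper bound for the second moment -/
theorem second' (h : Good Gr D c) (ψ : Finset V → ℝ) (N : ℕ) (hN : Part N ψ) :
    Gam ψ (PP Gr D * PP Gr D) ≤ (1 + 1 / D) * (N * (ψ ⬝ᵥ ψ)) - V2 ψ (PP Gr D) := by
  set P := PP Gr D with hP
  rw [Gam_mul ψ P PP_symm]
  have h1 : ∀ y z, G ψ y z ≤ (G ψ y y + G ψ z z) / 2 - K2 ψ y z + if z = y then G ψ y y else 0 := by
    intro y z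
    by_cases hyz : z = y
    · subst hyz; rw [if_pos rfl, K2_self]; linarith
    · rw [if_neg hyz]
      have := two_G_le ψ y z (Ne.symm hyz)
      linarith
  have hpn : ∀ x y, 0 ≤ P x y := PP_nonneg
  have h2 : ∑ x, ∑ y, ∑ z, P x y * P x z * G ψ y z ≤ ∑ x, ∑ y, ∑ z, P x y * P x z *
      ((G ψ y y + G ψ z z) / 2 - K2 ψ y z + if z = y then G ψ y y else 0) :=
    sum_le_sum fun x _ => sum_le_sum fun y _ => sum_le_sum fun z _ =>
      mul_le_mul_of_nonneg_left (h1 y z) (mul_nonneg (hpn _ _) (hpn _ _))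
  refine h2.trans (le_of_eq ?_)
  have hcol : ∀ y, ∑ x, P x y = 1 := by
    intro y
    rw [← h.row y]
    exact sum_congr rfl fun x _ => PP_symm x y
  have e1 : ∀ x, ∑ y, ∑ z, P x y * P x z *
      ((G ψ y y + G ψ z z) / 2 - K2 ψ y z + if z = y then G ψ y y else 0) =
      ∑ y, P x y * G ψ y y - ∑ y, ∑ z, P x y * P x z * K2 ψ y z + (∑ y, P x y * G ψ y y) / D := by
    intro x
    have e2 : ∀ y, ∑ z, P x y * P x z *
        ((G ψ y y + G ψ z z) / 2 - K2 ψ y z + if z = y then G ψ y y else 0) =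
        P x y * G ψ y y / 2 + P x y * (∑ z, P x z * G ψ z z) / 2 -
          ∑ z, P x y * P x z * K2 ψ y z + P x y * G ψ y y / D := by
      intro y
      have e3 : ∀ z, P x y * P x z *
        ((G ψ y y + G ψ z z) / 2 - K2 ψ y z + if z = y then G ψ y y else 0) =
        P x z * (P x y * G ψ y y / 2) + P x y / 2 * (P x z * G ψ z z) - P x y * P x z * K2 ψ y z +
          (if z = y then P x y * P x z * G ψ y y else 0) := by
        intro z; split_ifs <;> ring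
      simp_rw [e3]
      rw [sum_add_distrib, sum_sub_distrib, sum_add_distrib, ← sum_mul, hP, h.row x, ← hP,
        ← mul_sum, sum_ite_eq', if_pos (mem_univ _)]
      have e4 : P x y * P x y * G ψ y y = P x y * G ψ y y / D := by
        have : P x y ^ 2 = P x y / D := PP_sq x y
        rw [← sq, this]; ring
      rw [e4]; ring
    simp_rw [e2]
    rw [sum_add_distrib, sum_sub_distrib, sum_add_distrib, ← sum_div, ← sum_div, ← sum_div,
      ← sum_mul, hP, h.row x]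
    ring
  simp_rw [e1]
  rw [sum_add_distrib, sum_sub_distrib, ← sum_div]
  have e5 : ∑ x, ∑ y, P x y * G ψ y y = N * (ψ ⬝ᵥ ψ) := by
    rw [sum_comm]
    simp_rw [← sum_mul, hcol, one_mul]
    exact sum_G N ψ hN
  rw [e5]
  unfold V2
  ring

/-- the covariance inequality -/
theorem covar (h : Good Gr D c) (ψ : Finset V → ℝ) (N : ℕ) (hN : Part N ψ) (ρ : ℝ)
    (hρ : ρ * Fintype.card V = N) (τ : ℝ) :
    0 ≤ τ ^ 2 * (N * (1 - ρ) * (ψ ⬝ᵥ ψ)) + 2 * τ * (kap ψ (PP Gr D) - N * ρ * (ψ ⬝ᵥ ψ)) +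
      (V2 ψ (PP Gr D) - N * ρ * (ψ ⬝ᵥ ψ)) := by
  set P := PP Gr D with hP
  have hcol : ∀ y, ∑ x, P x y = 1 := by
    intro y
    rw [← h.row y]
    exact sum_congr rfl fun x _ => PP_symm x y
  have h1 : ∀ x, 0 ≤ τ ^ 2 * (G ψ x x - 2 * ρ * G ψ x x + ρ ^ 2 * (ψ ⬝ᵥ ψ)) +
      2 * τ * (∑ y, P x y * K2 ψ x y - ρ * G ψ x x - ρ * ∑ y, P x y * G ψ y y + ρ ^ 2 * (ψ ⬝ᵥ ψ)) +
      (∑ y, ∑ z, P x y * P x z * K2 ψ y z - 2 * ρ * ∑ y, P x y * G ψ y y + ρ ^ 2 * (ψ ⬝ᵥ ψ)) := by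
    intro x
    set B : Finset V → ℝ := ∑ y, P x y • nn y ψ with hB
    have h0 : 0 ≤ (τ • (nn x ψ - ρ • ψ) + (B - ρ • ψ)) ⬝ᵥ (τ • (nn x ψ - ρ • ψ) + (B - ρ • ψ)) :=
      dot_self_nonneg _
    have k1 : nn x ψ ⬝ᵥ nn x ψ = G ψ x x := by rw [← K2_self]; rfl
    have k2 : nn x ψ ⬝ᵥ ψ = G ψ x x := by rw [nn_dot, G_self]
    have k2' : ψ ⬝ᵥ nn x ψ = G ψ x x := by rw [G_self]
    have k3 : nn x ψ ⬝ᵥ B = ∑ y, P x y * K2 ψ x y := by
      rw [hB, dotProduct_sum]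
      refine sum_congr rfl fun y _ => ?_
      rw [dotProduct_smul, smul_eq_mul]; rfl
    have k3' : B ⬝ᵥ nn x ψ = ∑ y, P x y * K2 ψ x y := by rw [dotProduct_comm, k3]
    have k4 : B ⬝ᵥ ψ = ∑ y, P x y * G ψ y y := by
      rw [hB, sum_dotProduct]
      refine sum_congr rfl fun y _ => ?_
      rw [smul_dotProduct, smul_eq_mul, nn_dot, G_self]
    have k4' : ψ ⬝ᵥ B = ∑ y, P x y * G ψ y y := by rw [dotProduct_comm, k4]
    have k5 : B ⬝ᵥ B = ∑ y, ∑ z, P x y * P x z * K2 ψ y z := by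
      rw [hB, sum_dotProduct]
      refine sum_congr rfl fun y _ => ?_
      rw [dotProduct_sum]
      refine sum_congr rfl fun z _ => ?_
      rw [smul_dotProduct, dotProduct_smul, smul_eq_mul, smul_eq_mul, K2]; ring
    simp only [add_dotProduct, dotProduct_add, sub_dotProduct, dotProduct_sub, smul_dotProduct,
      dotProduct_smul, smul_eq_mul, k1, k2, k2', k3, k3', k4, k4', k5] at h0
    refine h0.trans (le_of_eq ?_)
    ring
  have h2 := sum_nonneg fun (x : V) (_ : x ∈ univ) => h1 x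
  simp only [sum_add_distrib, sum_sub_distrib, ← mul_sum] at h2
  rw [sum_G N ψ hN] at h2
  have h4 : ∑ x : V, ψ ⬝ᵥ ψ = Fintype.card V * (ψ ⬝ᵥ ψ) := by
    rw [sum_const, nsmul_eq_mul]; rfl
  have e5 : ∑ x, ∑ y, P x y * G ψ y y = N * (ψ ⬝ᵥ ψ) := by
    rw [sum_comm]
    simp_rw [← sum_mul, hcol, one_mul]
    exact sum_G N ψ hN
  rw [h4, e5] at h2
  unfold kap V2
  refine h2.trans (le_of_eq ?_)
  rw [← hρ]; ring

end Run7.h259.BEC
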