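import Pool.Agent.Run7.h259.BEC.Main1

/-!
# The sum of squares as an identity
-/

set_option autoImplicit false
set_option linter.unusedSectionVars false

noncomputable section

namespace Run7.h259.BEC

open Finset Matrix

variable {V : Type*} [Fintype V] [DecidableEq V]

/-- `∑ q(x,y) a_y ψ` -/
def bB (q : V → V → ℝ) (x : V) (ψ : Finset V → ℝ) : Finset V → ℝ := ∑ y, q x y • a y ψ
/-- `∑ q(x,y) a_y† ψ` -/
def bD (q : V → V → ℝ) (x : V) (ψ : Finset V → ℝ) : Finset V → ℝ := ∑ y, q x y • ad y ψ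
/-- `(1 - ρ) a_x ψ - (1 - n_x) b_x ψ` -/
def Zv (q : V → V → ℝ) (ρ : ℝ) (x : V) (ψ : Finset V → ℝ) : Finset V → ℝ :=
  (1 - ρ) • a x ψ - mm x (bB q x ψ)
/-- `ρ a_x† ψ - n_x b_x† ψ` -/
def Wv (q : V → V → ℝ) (ρ : ℝ) (x : V) (ψ : Finset V → ℝ) : Finset V → ℝ :=
  ρ • ad x ψ - nn x (bD q x ψ)
/-- the sum of the squares -/
def SS (q : V → V → ℝ) (ρ : ℝ) (ψ : Finset V → ℝ) : ℝ :=
  ∑ x, (Zv q ρ x ψ ⬝ᵥ Zv q ρ x ψ + Wv q ρ x ψ ⬝ᵥ Wv q ρ x ψ)

lemma SS_nonneg (q : V → V → ℝ) (ρ : ℝ) (ψ : Finset V → ℝ) : 0 ≤ SS q ρ ψ :=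
  sum_nonneg fun _ _ => add_nonneg (dot_self_nonneg _) (dot_self_nonneg _)

/-- **The sum of squares at one site.** -/
theorem site_eq (ψ : Finset V → ℝ) (x : V) (q : V → V → ℝ) (hc : q x x = 0) (ρ : ℝ) :
    Zv q ρ x ψ ⬝ᵥ Zv q ρ x ψ + Wv q ρ x ψ ⬝ᵥ Wv q ρ x ψ =
      (1 - ρ) ^ 2 * G ψ x x + ρ ^ 2 * (ψ ⬝ᵥ ψ - G ψ x x) - 2 * ∑ y, q x y * G ψ x y +
      ∑ y, ∑ z, q x y * q x z * G ψ y z + ∑ y, q x y ^ 2 * (G ψ x x - 2 * K2 ψ x y) := by
  set c : V → ℝ := q x with hcc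
  have hZ : Zv q ρ x ψ = (1 - ρ) • a x ψ - mm x (∑ y, c y • a y ψ) := rfl
  have hW : Wv q ρ x ψ = ρ • ad x ψ - nn x (∑ y, c y • ad y ψ) := rfl
  rw [hZ, hW]
  set B : Finset V → ℝ := ∑ y, c y • a y ψ with hB
  set B' : Finset V → ℝ := ∑ y, c y • ad y ψ with hB'
  have h1 : a x ψ ⬝ᵥ mm x B = ∑ y, c y * G ψ x y := by
    rw [← mm_dot, mm_a, hB, dotProduct_sum]
    refine sum_congr rfl fun y _ => ?_
    rw [dotProduct_smul, smul_eq_mul]; rfl
  have h2 : ad x ψ ⬝ᵥ nn x B' = ∑ y, c y * G ψ x y := by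
    rw [← nn_dot, nn_ad, hB', dotProduct_sum]
    refine sum_congr rfl fun y _ => ?_
    rw [dotProduct_smul, smul_eq_mul]
    by_cases h : x = y
    · rw [← h, hc]; ring
    · rw [ad_dot, a_ad x y h, ← a_dot, dotProduct_comm]; rfl
  have h3 : ad x ψ ⬝ᵥ ad x ψ = ψ ⬝ᵥ ψ - G ψ x x := by
    rw [ad_dot, a_ad_self]
    have e1 : ψ ⬝ᵥ (nn x ψ + mm x ψ) = ψ ⬝ᵥ ψ := by rw [nn_add_mm]
    rw [dotProduct_add, ← G_self] at e1
    linarith
  have h4 : mm x B ⬝ᵥ mm x B + nn x B' ⬝ᵥ nn x B' =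
      ∑ y, ∑ z, c y * c z * G ψ y z + ∑ y, c y ^ 2 * (G ψ x x - 2 * K2 ψ x y) := by
    have e1 : mm x B ⬝ᵥ mm x B + nn x B' ⬝ᵥ nn x B' = ∑ y, ∑ z, c y * c z *
        (mm x (a y ψ) ⬝ᵥ mm x (a z ψ) + nn x (ad y ψ) ⬝ᵥ nn x (ad z ψ)) := by
      have e2 : mm x B = ∑ y, c y • mm x (a y ψ) := by
        rw [hB, map_sum]; exact sum_congr rfl fun y _ => by rw [map_smul]
      have e3 : nn x B' = ∑ y, c y • nn x (ad y ψ) := by
        rw [hB', map_sum]; exact sum_congr rfl fun y _ => by rw [map_smul]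
      rw [e2, e3, sum_dotProduct, sum_dotProduct, ← sum_add_distrib]
      refine sum_congr rfl fun y _ => ?_
      rw [dotProduct_sum, dotProduct_sum, ← sum_add_distrib]
      refine sum_congr rfl fun z _ => ?_
      rw [smul_dotProduct, dotProduct_smul, smul_dotProduct, dotProduct_smul]
      simp only [smul_eq_mul]; ring
    rw [e1, ← sum_add_distrib]
    refine sum_congr rfl fun y _ => ?_
    by_cases hy : x = y
    · subst hy; simp [hc]
    · have e4 : c y ^ 2 * (G ψ x x - 2 * K2 ψ x y) =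
          ∑ z, if y = z then c y * c z * (G ψ x x - 2 * K2 ψ x y) else 0 := by
        rw [sum_ite_eq, if_pos (mem_univ _)]; ring
      rw [e4, ← sum_add_distrib]
      refine sum_congr rfl fun z _ => ?_
      by_cases hz : x = z
      · subst hz; simp [hc]
      · by_cases hyz : y = z
        · subst hyz
          rw [mixed_eq ψ x y hy, if_pos rfl]; ring
        · rw [mixed_ne ψ x y z hy hz hyz, if_neg hyz, add_zero]
  simp only [sub_dotProduct, dotProduct_sub, smul_dotProduct, dotProduct_smul, smul_eq_mul]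
  have h5 : mm x B ⬝ᵥ a x ψ = ∑ y, c y * G ψ x y := by rw [dotProduct_comm, h1]
  have h6 : nn x B' ⬝ᵥ ad x ψ = ∑ y, c y * G ψ x y := by rw [dotProduct_comm, h2]
  have h7 : a x ψ ⬝ᵥ a x ψ = G ψ x x := rfl
  rw [h1, h5, h7, h2, h6, h3]
  linear_combination h4

/-- **The sum of squares for a symmetric matrix.** -/
theorem glob_eq (ψ : Finset V → ℝ) (N : ℕ) (h : Part N ψ) (Q : Matrix V V ℝ)
    (hQ : ∀ x y, Q x y = Q y x) (ρ : ℝ) :
    SS (fun x y => if y = x then 0 else Q x y) ρ ψ =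
      ((1 - ρ) ^ 2 * N + ρ ^ 2 * (Fintype.card V - N)) * (ψ ⬝ᵥ ψ) -
      2 * (Gam ψ Q - ∑ x, Q x x * G ψ x x) + Gam ψ (Q * Q) -
      2 * ∑ x, Q x x * ∑ y, Q x y * G ψ x y + ∑ x, Q x x ^ 2 * G ψ x x +
      ∑ x, ∑ y, (if y = x then 0 else Q x y) ^ 2 * (G ψ x x - 2 * K2 ψ x y) := by
  have hs := fun x => site_eq ψ x (fun x y => if y = x then 0 else Q x y) (by simp) ρ
  have h1 : ∀ x, ∑ y, (if y = x then 0 else Q x y) * G ψ x y =
      ∑ y, Q x y * G ψ x y - Q x x * G ψ x x := by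
    intro x
    have : ∀ y, (if y = x then 0 else Q x y) * G ψ x y =
        Q x y * G ψ x y - if y = x then Q x y * G ψ x y else 0 := by
      intro y; split_ifs <;> ring
    simp_rw [this]
    rw [sum_sub_distrib, sum_ite_eq', if_pos (mem_univ _)]
  have h2 : ∀ x, ∑ y, ∑ z, (if y = x then 0 else Q x y) * (if z = x then 0 else Q x z) * G ψ y z =
      ∑ y, ∑ z, Q x y * Q x z * G ψ y z - 2 * (Q x x * ∑ y, Q x y * G ψ x y) +
        Q x x ^ 2 * G ψ x x := by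
    intro x
    have e1 : ∀ y, ∑ z, (if y = x then 0 else Q x y) * (if z = x then 0 else Q x z) * G ψ y z =
        (if y = x then 0 else Q x y) * (∑ z, Q x z * G ψ y z - Q x x * G ψ y x) := by
      intro y
      have : ∀ z, (if y = x then 0 else Q x y) * (if z = x then 0 else Q x z) * G ψ y z =
        (if y = x then 0 else Q x y) * (Q x z * G ψ y z - if z = x then Q x z * G ψ y z else 0) := by
        intro z; split_ifs <;> ring
      simp_rw [this]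
      rw [← mul_sum, sum_sub_distrib, sum_ite_eq', if_pos (mem_univ _)]
    simp_rw [e1]
    have e2 : ∀ y, (if y = x then 0 else Q x y) * (∑ z, Q x z * G ψ y z - Q x x * G ψ y x) =
        Q x y * (∑ z, Q x z * G ψ y z - Q x x * G ψ y x) -
          if y = x then Q x y * (∑ z, Q x z * G ψ y z - Q x x * G ψ y x) else 0 := by
      intro y; split_ifs <;> ring
    simp_rw [e2]
    rw [sum_sub_distrib, sum_ite_eq', if_pos (mem_univ _)]
    simp_rw [mul_sub]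
    rw [sum_sub_distrib]
    have e3 : ∑ y, Q x y * ∑ z, Q x z * G ψ y z = ∑ y, ∑ z, Q x y * Q x z * G ψ y z := by
      refine sum_congr rfl fun y _ => ?_
      rw [mul_sum]
      exact sum_congr rfl fun z _ => by ring
    have e4 : ∑ y, Q x y * (Q x x * G ψ y x) = Q x x * ∑ y, Q x y * G ψ x y := by
      rw [mul_sum]
      refine sum_congr rfl fun y _ => ?_
      rw [G_comm ψ y x]; ring
    rw [e3, e4]
    ring
  have h3 : SS (fun x y => if y = x then 0 else Q x y) ρ ψ =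
      ∑ x, ((1 - ρ) ^ 2 * G ψ x x + ρ ^ 2 * (ψ ⬝ᵥ ψ - G ψ x x) -
      2 * (∑ y, Q x y * G ψ x y - Q x x * G ψ x x) +
      (∑ y, ∑ z, Q x y * Q x z * G ψ y z - 2 * (Q x x * ∑ y, Q x y * G ψ x y) +
        Q x x ^ 2 * G ψ x x) +
      ∑ y, (if y = x then 0 else Q x y) ^ 2 * (G ψ x x - 2 * K2 ψ x y)) := by
    unfold SS
    refine sum_congr rfl fun x _ => ?_
    rw [hs x]
    simp only [h1, h2]
  simp only [sum_add_distrib, sum_sub_distrib, ← mul_sum] at h3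
  rw [sum_G N ψ h] at h3
  rw [Gam_mul ψ Q hQ]
  have h4 : ∑ x : V, ψ ⬝ᵥ ψ = Fintype.card V * (ψ ⬝ᵥ ψ) := by
    rw [sum_const, nsmul_eq_mul]; rfl
  rw [h4] at h3
  unfold Gam
  refine h3.trans ?_
  ring

end Run7.h259.BEC
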