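import Pool.Agent.Run7.h259.BEC.Low0

/-!
# The algebra of the lower bound for the sum of squares
-/

set_option autoImplicit false
set_option linter.unusedSectionVars false

noncomputable section

namespace Run7.h259.BEC

open Finset Matrix

variable {V : Type*} [Fintype V] [DecidableEq V]

lemma ad_mm (x : V) (φ : Finset V → ℝ) : ad x (mm x φ) = ad x φ := by
  ext S; simp only [ad_apply, mm_apply]; by_cases h : x ∈ S <;> simp [h]

lemma a_nn (x : V) (φ : Finset V → ℝ) : a x (nn x φ) = a x φ := by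
  ext S; simp only [a_apply, nn_apply]; by_cases h : x ∈ S <;> simp [h]

lemma a_a_self (x : V) (φ : Finset V → ℝ) : a x (a x φ) = 0 := by
  ext S; simp only [a_apply]; by_cases h : x ∈ S <;> simp [h]

lemma ad_ad_self (x : V) (φ : Finset V → ℝ) : ad x (ad x φ) = 0 := by
  ext S; simp only [ad_apply]; by_cases h : x ∈ S <;> simp [h]

lemma a_a (x y : V) (φ : Finset V → ℝ) : a x (a y φ) = a y (a x φ) := by
  by_cases h : x = y
  · rw [h]
  ext S; simp only [a_apply]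
  by_cases hx : x ∈ S <;> by_cases hy : y ∈ S <;> simp [hx, hy, h, Ne.symm h, insert_comm x y]

lemma ad_ad (x y : V) (φ : Finset V → ℝ) : ad x (ad y φ) = ad y (ad x φ) := by
  by_cases h : x = y
  · rw [h]
  ext S; simp only [ad_apply]
  by_cases hx : x ∈ S <;> by_cases hy : y ∈ S <;>
    simp [hx, hy, h, Ne.symm h, erase_right_comm (a := x) (b := y)]

/-- the current -/
def jv (x y : V) (ψ : Finset V → ℝ) : Finset V → ℝ := a x (ad y ψ) - ad x (a y ψ)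
/-- the kinetic energy of a bond -/
def kv (x y : V) (ψ : Finset V → ℝ) : Finset V → ℝ := ad x (a y ψ) + a x (ad y ψ)
def Jv (q : V → V → ℝ) (x : V) (ψ : Finset V → ℝ) : Finset V → ℝ := ∑ y, q x y • jv x y ψ
def Kv (q : V → V → ℝ) (x : V) (ψ : Finset V → ℝ) : Finset V → ℝ := ∑ y, q x y • kv x y ψ
def al (q : V → V → ℝ) (ρ : ℝ) (x : V) (ψ : Finset V → ℝ) : Finset V → ℝ := ad x (Zv q ρ x ψ)
def be (q : V → V → ℝ) (ρ : ℝ) (x : V) (ψ : Finset V → ℝ) : Finset V → ℝ := a x (Wv q ρ x ψ)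
def et (ρ : ℝ) (x : V) (ψ : Finset V → ℝ) : Finset V → ℝ := nn x ψ - ρ • ψ
def Mv (q : V → V → ℝ) (ρ : ℝ) (x : V) (ψ : Finset V → ℝ) : Finset V → ℝ :=
  al q ρ x ψ + be q ρ x ψ
def Fv (f : V → V → ℝ) (ρ : ℝ) (x : V) (ψ : Finset V → ℝ) : Finset V → ℝ :=
  ∑ z, f x z • et ρ z ψ

lemma al_eq (q : V → V → ℝ) (ρ : ℝ) (x : V) (ψ : Finset V → ℝ) :
    al q ρ x ψ = (1 - ρ) • nn x ψ - ad x (bB q x ψ) := by
  unfold al Zv
  rw [map_sub, map_smul, ad_a_self, ad_mm]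

lemma be_eq (q : V → V → ℝ) (ρ : ℝ) (x : V) (ψ : Finset V → ℝ) :
    be q ρ x ψ = ρ • mm x ψ - a x (bD q x ψ) := by
  unfold be Wv
  rw [map_sub, map_smul, a_ad_self, a_nn]

lemma Jv_eq (q : V → V → ℝ) (x : V) (ψ : Finset V → ℝ) :
    Jv q x ψ = a x (bD q x ψ) - ad x (bB q x ψ) := by
  unfold Jv bD bB jv
  rw [map_sum, map_sum, ← sum_sub_distrib]
  exact sum_congr rfl fun y _ => by rw [map_smul, map_smul, smul_sub]

lemma Kv_eq (q : V → V → ℝ) (x : V) (ψ : Finset V → ℝ) :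
    Kv q x ψ = ad x (bB q x ψ) + a x (bD q x ψ) := by
  unfold Kv bD bB kv
  rw [map_sum, map_sum, ← sum_add_distrib]
  exact sum_congr rfl fun y _ => by rw [map_smul, map_smul, smul_add]

lemma mm_eq (x : V) (ψ : Finset V → ℝ) : mm x ψ = ψ - nn x ψ := by
  rw [eq_sub_iff_add_eq, add_comm, nn_add_mm]

lemma et_eq (q : V → V → ℝ) (ρ : ℝ) (x : V) (ψ : Finset V → ℝ) :
    et ρ x ψ = al q ρ x ψ - be q ρ x ψ - Jv q x ψ := by
  rw [al_eq, be_eq, Jv_eq, mm_eq]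
  unfold et
  module

lemma Mv_eq (q : V → V → ℝ) (ρ : ℝ) (x : V) (ψ : Finset V → ℝ) :
    Mv q ρ x ψ = ρ • ψ + (1 - 2 * ρ) • nn x ψ - Kv q x ψ := by
  unfold Mv
  rw [al_eq, be_eq, Kv_eq, mm_eq]
  module

/-- hopping -/
lemma G_ad (ψ : Finset V → ℝ) (x y : V) (h : x ≠ y) : ad x ψ ⬝ᵥ ad y ψ = G ψ x y := by
  rw [ad_dot, a_ad x y h, ← a_dot, dotProduct_comm]; rfl

lemma jv_dot_self (ψ : Finset V → ℝ) (z w : V) (h : z ≠ w) : jv z w ψ ⬝ᵥ ψ = 0 := by
  unfold jv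
  rw [sub_dotProduct, a_dot z (ad w ψ) ψ, G_ad ψ w z h.symm, ad_dot z (a w ψ) ψ]
  exact sub_self _

lemma jv_dot_nn_left (ψ : Finset V → ℝ) (z w : V) (h : z ≠ w) :
    jv z w ψ ⬝ᵥ nn z ψ = -G ψ z w := by
  unfold jv
  rw [sub_dotProduct, ← nn_dot, ← nn_dot, nn_ad]
  have h1 : nn z (a z (ad w ψ)) = 0 := by
    ext S; simp only [nn_apply, a_apply]; by_cases h : z ∈ S <;> simp [h]
  rw [h1, zero_dotProduct, ad_dot, zero_sub, neg_inj, dotProduct_comm]; rfl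

lemma jv_dot_nn_right (ψ : Finset V → ℝ) (z w : V) (h : z ≠ w) :
    jv z w ψ ⬝ᵥ nn w ψ = G ψ z w := by
  unfold jv
  rw [sub_dotProduct, ← nn_dot, ← nn_dot, a_ad z w h, nn_ad, nn_ad' w z h.symm]
  have h1 : nn w (a w ψ) = 0 := by
    ext S; simp only [nn_apply, a_apply]; by_cases h : w ∈ S <;> simp [h]
  rw [h1, map_zero, zero_dotProduct, ad_dot, sub_zero]; rfl

lemma jv_dot_nn (ψ : Finset V → ℝ) (x z w : V) (h : z ≠ w) (hz : x ≠ z) (hw : x ≠ w) :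
    jv z w ψ ⬝ᵥ nn x ψ = 0 := by
  have h1 : jv z w ψ ⬝ᵥ nn x ψ = jv z w (nn x ψ) ⬝ᵥ nn x ψ := by
    calc jv z w ψ ⬝ᵥ nn x ψ = jv z w ψ ⬝ᵥ nn x (nn x ψ) := by rw [nn_nn]
      _ = nn x (jv z w ψ) ⬝ᵥ nn x ψ := by rw [nn_dot]
      _ = jv z w (nn x ψ) ⬝ᵥ nn x ψ := by
          congr 1
          unfold jv
          rw [map_sub, nn_a x z hz, nn_ad' x w hw, nn_ad' x z hz, nn_a x w hw]
  rw [h1, jv_dot_self _ z w h]

/-- current and density -/
lemma Jv_dot_nn (q : V → V → ℝ) (hq0 : ∀ x, q x x = 0) (ψ : Finset V → ℝ) (x z : V) :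
    Jv q z ψ ⬝ᵥ nn x ψ = q z x * G ψ z x - if x = z then ∑ w, q z w * G ψ z w else 0 := by
  unfold Jv
  rw [sum_dotProduct]
  simp only [smul_dotProduct, smul_eq_mul]
  by_cases hxz : x = z
  · subst hxz
    rw [if_pos rfl, hq0, zero_mul, zero_sub, ← sum_neg_distrib]
    refine sum_congr rfl fun w _ => ?_
    by_cases hw : w = x
    · rw [hw, hq0]; ring
    · rw [jv_dot_nn_left ψ x w (Ne.symm hw)]; ring
  · rw [if_neg hxz, sub_zero, sum_eq_single x]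
    · rw [jv_dot_nn_right ψ z x (Ne.symm hxz)]
    · intro w _ hw
      by_cases hwz : w = z
      · rw [hwz, hq0, zero_mul]
      · rw [jv_dot_nn ψ x z w (Ne.symm hwz) hxz (Ne.symm hw), mul_zero]
    · simp

lemma Jv_dot_self (q : V → V → ℝ) (hq0 : ∀ x, q x x = 0) (ψ : Finset V → ℝ) (z : V) :
    Jv q z ψ ⬝ᵥ ψ = 0 := by
  unfold Jv
  rw [sum_dotProduct]
  refine sum_eq_zero fun w _ => ?_
  rw [smul_dotProduct, smul_eq_mul]
  by_cases hw : w = z
  · rw [hw, hq0, zero_mul]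
  · rw [jv_dot_self ψ z w (Ne.symm hw), mul_zero]

/-- four different sites -/
lemma jk_four (ψ : Finset V → ℝ) (z w x y : V) (hzw : z ≠ w) (hxy : x ≠ y) (hzx : z ≠ x)
    (hzy : z ≠ y) (hwx : w ≠ x) (hwy : w ≠ y) : jv z w ψ ⬝ᵥ kv x y ψ = 0 := by
  unfold jv kv
  rw [sub_dotProduct, dotProduct_add, dotProduct_add]
  have e1 : a z (ad w ψ) ⬝ᵥ ad x (a y ψ) = ad z (a w ψ) ⬝ᵥ a x (ad y ψ) := by
    rw [dotProduct_comm]
    simp only [a_dot, ad_dot]
    congr 1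
    rw [a_ad z w hzw, a_ad x w hwx.symm, ad_ad y w, a_ad x y hxy, a_ad z y hzy, a_a z x]
  have e2 : a z (ad w ψ) ⬝ᵥ a x (ad y ψ) = ad z (a w ψ) ⬝ᵥ ad x (a y ψ) := by
    rw [dotProduct_comm]
    simp only [a_dot, ad_dot]
    congr 1
    rw [a_ad z w hzw, ad_ad x w, a_ad y w hwy.symm, a_ad y x hxy.symm, a_a y z,
      a_ad z x hzx]
  rw [e1, e2]; ring

/-- three different sites, the two terms cancel -/
lemma jk_three (ψ : Finset V → ℝ) (z w x : V) (hxz : x ≠ z) :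
    jv z w ψ ⬝ᵥ kv x z ψ + jv x z ψ ⬝ᵥ kv z w ψ = 0 := by
  unfold jv kv
  have t2 : a z (ad w ψ) ⬝ᵥ a x (ad z ψ) = 0 := by
    rw [a_dot, ← a_ad x z hxz, ad_ad_self, map_zero, dotProduct_zero]
  have t3 : ad z (a w ψ) ⬝ᵥ ad x (a z ψ) = 0 := by
    rw [ad_dot, a_ad z x hxz.symm, a_a_self, map_zero, dotProduct_zero]
  have t2' : a x (ad z ψ) ⬝ᵥ a z (ad w ψ) = 0 := by rw [dotProduct_comm, t2]
  have t3' : ad x (a z ψ) ⬝ᵥ ad z (a w ψ) = 0 := by rw [dotProduct_comm, t3]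
  simp only [sub_dotProduct, dotProduct_add]
  rw [t2, t3, t2', t3', dotProduct_comm (a x (ad z ψ)) (ad z (a w ψ)),
    dotProduct_comm (ad x (a z ψ)) (a z (ad w ψ))]
  ring

lemma jk_two (ψ : Finset V → ℝ) (x z : V) (hxz : x ≠ z) :
    jv z x ψ ⬝ᵥ kv x z ψ = -(jv x z ψ ⬝ᵥ kv z x ψ) := by
  have e1 : jv z x ψ = -jv x z ψ := by
    unfold jv
    rw [a_ad z x hxz.symm, a_ad x z hxz, neg_sub]
  have e2 : kv x z ψ = kv z x ψ := by
    unfold kv
    rw [a_ad z x hxz.symm, a_ad x z hxz, add_comm]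
  rw [e1, e2, neg_dotProduct]

lemma norm_split (y : V) (φ : Finset V → ℝ) : ad y φ ⬝ᵥ ad y φ + a y φ ⬝ᵥ a y φ = φ ⬝ᵥ φ := by
  rw [ad_dot, a_ad_self, a_dot, ad_a_self, ← dotProduct_add, add_comm, nn_add_mm]

lemma jk_side (ψ : Finset V → ℝ) (x y z : V) (hxy : x ≠ y) (hzy : z ≠ y) (hxz : x ≠ z) :
    |jv z y ψ ⬝ᵥ kv x y ψ| ≤ (G ψ z z + G ψ x x) / 2 := by
  have t1 : a z (ad y ψ) ⬝ᵥ ad x (a y ψ) = 0 := by
    rw [a_ad z y hzy, ad_dot, a_ad y x hxy.symm, a_a_self, map_zero, dotProduct_zero]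
  have t4 : ad z (a y ψ) ⬝ᵥ a x (ad y ψ) = 0 := by
    rw [a_ad x y hxy, dotProduct_comm, ad_dot, a_ad y z hzy.symm, a_a_self, map_zero,
      dotProduct_zero]
  have t3 : ad z (a y ψ) ⬝ᵥ ad x (a y ψ) = G (a y ψ) z x := G_ad _ z x hxz.symm
  have e : jv z y ψ ⬝ᵥ kv x y ψ = G (ad y ψ) z x - G (a y ψ) z x := by
    unfold jv kv
    simp only [sub_dotProduct, dotProduct_add]
    rw [t1, t4, t3]
    unfold G; ring
  have hs : ∀ u, u ≠ y → G (ad y ψ) u u + G (a y ψ) u u = G ψ u u := by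
    intro u hu
    unfold G
    rw [a_ad u y hu, a_a u y, norm_split]
  have h1 := abs_G_le (ad y ψ) z x
  have h2 := abs_G_le (a y ψ) z x
  have h3 := hs z hzy
  have h4 := hs x hxy
  rw [e]
  have h5 : |G (ad y ψ) z x - G (a y ψ) z x| ≤ |G (ad y ψ) z x| + |G (a y ψ) z x| := abs_sub _ _
  linarith

lemma four_term (q : V → V → ℝ) (hq0 : ∀ x, q x x = 0) (ψ : Finset V → ℝ) (x z : V)
    (hxz : x ≠ z) (w y : V) :
    q z w * q x y * (jv z w ψ ⬝ᵥ kv x y ψ) =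
      (if y = z then q z w * q x z * (jv z w ψ ⬝ᵥ kv x z ψ) else 0) +
      (if w = x then (if y = z then 0 else q z x * q x y * (jv z x ψ ⬝ᵥ kv x y ψ)) else 0) +
      (if w = y then q z y * q x y * (jv z y ψ ⬝ᵥ kv x y ψ) else 0) := by
  by_cases hwz : w = z
  · subst hwz
    rw [hq0, if_neg (Ne.symm hxz)]
    by_cases hy : w = y
    · subst hy; simp [hq0]
    · simp [hy]
  by_cases hyx : y = x
  · subst hyx
    rw [hq0, if_neg hxz]
    by_cases hw : w = y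
    · subst hw; simp [hxz, hq0]
    · simp [hw]
  by_cases hyz : y = z
  · subst hyz
    simp [hwz]
  · by_cases hwx : w = x
    · subst hwx
      simp [hyz, Ne.symm hyx]
    · by_cases hwy : w = y
      · subst hwy
        simp [hyz, hwx]
      · rw [if_neg hyz, if_neg hwx, if_neg hwy,
          jk_four ψ z w x y (Ne.symm hwz) (Ne.symm hyx) (Ne.symm hxz) (Ne.symm hyz) hwx hwy]
        ring

/-- **Current and kinetic energy.** -/
theorem JK_sum (q f : V → V → ℝ) (hq0 : ∀ x, q x x = 0) (hq : ∀ x y, q x y = q y x)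
    (hqn : ∀ x y, 0 ≤ q x y) (hf0 : ∀ x, f x x = 0) (hf : ∀ x y, f x y = f y x)
    (ψ : Finset V → ℝ) :
    |∑ x, ∑ z, f x z * (Jv q z ψ ⬝ᵥ Kv q x ψ)| ≤
      ∑ x, ∑ z, |f x z| * (∑ y, q x y * q y z) * G ψ x x := by
  have h1 : ∀ x z, f x z * (Jv q z ψ ⬝ᵥ Kv q x ψ) =
      f x z * q x z * ∑ w, q z w * (jv z w ψ ⬝ᵥ kv x z ψ) +
      f x z * q z x * ∑ y, (if y = z then 0 else q x y * (jv z x ψ ⬝ᵥ kv x y ψ)) +
      f x z * ∑ y, q z y * q x y * (jv z y ψ ⬝ᵥ kv x y ψ) := by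
    intro x z
    by_cases hxz : x = z
    · subst hxz; rw [hf0]; ring
    have e1 : Jv q z ψ ⬝ᵥ Kv q x ψ = ∑ w, ∑ y, q z w * q x y * (jv z w ψ ⬝ᵥ kv x y ψ) := by
      unfold Jv Kv
      rw [sum_dotProduct]
      refine sum_congr rfl fun w _ => ?_
      rw [dotProduct_sum]
      refine sum_congr rfl fun y _ => ?_
      rw [smul_dotProduct, dotProduct_smul, smul_eq_mul, smul_eq_mul]; ring
    rw [e1, sum_congr rfl fun w _ => sum_congr rfl fun y _ => four_term q hq0 ψ x z hxz w y]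
    simp only [sum_add_distrib]
    have e2 : ∑ w, ∑ y, (if y = z then q z w * q x z * (jv z w ψ ⬝ᵥ kv x z ψ) else 0) =
        q x z * ∑ w, q z w * (jv z w ψ ⬝ᵥ kv x z ψ) := by
      rw [mul_sum]
      refine sum_congr rfl fun w _ => ?_
      rw [sum_ite_eq', if_pos (mem_univ _)]; ring
    have e3 : ∑ w, ∑ y, (if w = x then (if y = z then 0 else
        q z x * q x y * (jv z x ψ ⬝ᵥ kv x y ψ)) else 0) =
        q z x * ∑ y, (if y = z then 0 else q x y * (jv z x ψ ⬝ᵥ kv x y ψ)) := by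
      rw [sum_comm, mul_sum]
      refine sum_congr rfl fun y _ => ?_
      rw [sum_ite_eq', if_pos (mem_univ _)]
      split_ifs <;> ring
    have e4 : ∑ w, ∑ y, (if w = y then q z y * q x y * (jv z y ψ ⬝ᵥ kv x y ψ) else 0) =
        ∑ y, q z y * q x y * (jv z y ψ ⬝ᵥ kv x y ψ) := by
      rw [sum_comm]
      refine sum_congr rfl fun y _ => ?_
      rw [sum_ite_eq', if_pos (mem_univ _)]
    rw [e2, e3, e4]; ring
  simp_rw [h1]
  simp only [sum_add_distrib]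
  -- the first two sums cancel
  have hB : ∑ x, ∑ z, f x z * q z x * ∑ y, (if y = z then 0 else q x y * (jv z x ψ ⬝ᵥ kv x y ψ)) =
      ∑ x, ∑ z, f x z * q x z * ∑ y, (if y = x then 0 else q z y * (jv x z ψ ⬝ᵥ kv z y ψ)) := by
    rw [sum_comm]
    refine sum_congr rfl fun x _ => sum_congr rfl fun z _ => ?_
    rw [hf z x]
  have hcancel : ∑ x, ∑ z, f x z * q x z * ∑ w, q z w * (jv z w ψ ⬝ᵥ kv x z ψ) +
      ∑ x, ∑ z, f x z * q x z * ∑ y, (if y = x then 0 else q z y * (jv x z ψ ⬝ᵥ kv z y ψ)) = 0 := by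
    rw [← sum_add_distrib]
    have e1 : ∀ x, (∑ z, f x z * q x z * ∑ w, q z w * (jv z w ψ ⬝ᵥ kv x z ψ) +
        ∑ z, f x z * q x z * ∑ y, (if y = x then 0 else q z y * (jv x z ψ ⬝ᵥ kv z y ψ))) =
        ∑ z, f x z * q x z * (q z x * (jv z x ψ ⬝ᵥ kv x z ψ)) := by
      intro x
      rw [← sum_add_distrib]
      refine sum_congr rfl fun z _ => ?_
      rw [← mul_add, ← sum_add_distrib]
      by_cases hxz : x = z
      · subst hxz; rw [hf0]; ring
      congr 1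
      rw [sum_eq_single x]
      · rw [if_pos rfl, add_zero]
      · intro w _ hw
        rw [if_neg hw, ← mul_add, jk_three ψ z w x hxz, mul_zero]
      · simp
    simp_rw [e1]
    have e2 : ∑ x, ∑ z, f x z * q x z * (q z x * (jv z x ψ ⬝ᵥ kv x z ψ)) =
        -∑ x, ∑ z, f x z * q x z * (q z x * (jv z x ψ ⬝ᵥ kv x z ψ)) := by
      conv_lhs => rw [sum_comm]
      rw [← sum_neg_distrib]
      refine sum_congr rfl fun x _ => ?_
      rw [← sum_neg_distrib]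
      refine sum_congr rfl fun z _ => ?_
      by_cases hxz : x = z
      · subst hxz; rw [hf0]; ring
      rw [jk_two ψ x z hxz, hf z x, hq z x]; ring
    linarith
  rw [hB, hcancel, zero_add]
  refine (abs_sum_le_sum_abs _ _).trans ?_
  have h2 : ∀ x z, |f x z * ∑ y, q z y * q x y * (jv z y ψ ⬝ᵥ kv x y ψ)| ≤
      |f x z| * (∑ y, q x y * q y z) * (G ψ x x / 2) +
      |f x z| * (∑ y, q x y * q y z) * (G ψ z z / 2) := by
    intro x z
    rw [abs_mul, ← mul_add, mul_assoc]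
    by_cases hxz : x = z
    · subst hxz; rw [hf0]; simp
    refine mul_le_mul_of_nonneg_left ?_ (abs_nonneg _)
    rw [sum_mul]
    refine (abs_sum_le_sum_abs _ _).trans (sum_le_sum fun y _ => ?_)
    rw [abs_mul, abs_of_nonneg (mul_nonneg (hqn _ _) (hqn _ _)), hq y z, mul_comm (q z y)]
    by_cases hxy : x = y
    · subst hxy; rw [hq0]; simp
    by_cases hzy : z = y
    · subst hzy; rw [hq0]; simp
    refine mul_le_mul_of_nonneg_left ?_ (mul_nonneg (hqn _ _) (hqn _ _))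
    have := jk_side ψ x y z hxy hzy hxz
    linarith
  refine (sum_le_sum fun x _ => (abs_sum_le_sum_abs _ _).trans
    (sum_le_sum fun z _ => h2 x z)).trans (le_of_eq ?_)
  simp only [sum_add_distrib]
  have h3 : ∑ x, ∑ z, |f x z| * (∑ y, q x y * q y z) * (G ψ z z / 2) =
      ∑ x, ∑ z, |f x z| * (∑ y, q x y * q y z) * (G ψ x x / 2) := by
    rw [sum_comm]
    refine sum_congr rfl fun x _ => sum_congr rfl fun z _ => ?_
    rw [hf z x]
    congr 2
    refine sum_congr rfl fun y _ => ?_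
    rw [hq z y, hq y x]; ring
  rw [h3, ← sum_add_distrib]
  refine sum_congr rfl fun x _ => ?_
  rw [← sum_add_distrib]
  refine sum_congr rfl fun z _ => ?_
  ring

end Run7.h259.BEC
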