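import Pool.Agent.Run7.h259.BEC.Low1

/-!
# The lower bound for the sum of squares
-/

set_option autoImplicit false
set_option linter.unusedSectionVars false

noncomputable section

namespace Run7.h259.BEC

open Finset Matrix

variable {V : Type*} [Fintype V] [DecidableEq V]

/-- the operator norm of `f` is at most `δ` -/
def OpLe (f : V → V → ℝ) (δ : ℝ) : Prop :=
  ∀ u : V → ℝ, ∑ x, (∑ z, f x z * u z) ^ 2 ≤ δ ^ 2 * ∑ z, u z ^ 2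

lemma op_vec (f : V → V → ℝ) (δ : ℝ) (h : OpLe f δ) (Φ : V → Finset V → ℝ) :
    ∑ x, (∑ z, f x z • Φ z) ⬝ᵥ (∑ z, f x z • Φ z) ≤ δ ^ 2 * ∑ z, Φ z ⬝ᵥ Φ z := by
  have h1 : ∀ x, (∑ z, f x z • Φ z) ⬝ᵥ (∑ z, f x z • Φ z) = ∑ S, (∑ z, f x z * Φ z S) ^ 2 := by
    intro x
    unfold dotProduct
    refine sum_congr rfl fun S _ => ?_
    simp only [Finset.sum_apply, Pi.smul_apply, smul_eq_mul]
    rw [sq]
  simp_rw [h1]
  rw [sum_comm]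
  have h2 : ∑ z, Φ z ⬝ᵥ Φ z = ∑ S, ∑ z, Φ z S ^ 2 := by
    unfold dotProduct
    rw [sum_comm]
    exact sum_congr rfl fun S _ => sum_congr rfl fun z _ => (sq _).symm
  rw [h2, mul_sum]
  exact sum_le_sum fun S _ => h fun z => Φ z S

lemma ad_norm (x : V) (φ : Finset V → ℝ) : ad x φ ⬝ᵥ ad x φ ≤ φ ⬝ᵥ φ := by
  have h1 := norm_split x φ
  have h2 := dot_self_nonneg (a x φ)
  linarith

lemma a_norm (x : V) (φ : Finset V → ℝ) : a x φ ⬝ᵥ a x φ ≤ φ ⬝ᵥ φ := by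
  have h1 := norm_split x φ
  have h2 := dot_self_nonneg (ad x φ)
  linarith

lemma sum_al_be (q : V → V → ℝ) (ρ : ℝ) (ψ : Finset V → ℝ) :
    ∑ x, (al q ρ x ψ - be q ρ x ψ) ⬝ᵥ (al q ρ x ψ - be q ρ x ψ) ≤ 2 * SS q ρ ψ := by
  unfold SS
  rw [mul_sum]
  refine sum_le_sum fun x _ => ?_
  have h1 := ad_norm x (Zv q ρ x ψ)
  have h2 := a_norm x (Wv q ρ x ψ)
  have h3 := dot_self_nonneg (al q ρ x ψ + be q ρ x ψ)
  unfold al be at h3 ⊢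
  simp only [sub_dotProduct, dotProduct_sub, add_dotProduct, dotProduct_add] at h3 ⊢
  linarith

lemma sum_Mv (q : V → V → ℝ) (ρ : ℝ) (ψ : Finset V → ℝ) :
    ∑ x, Mv q ρ x ψ ⬝ᵥ Mv q ρ x ψ ≤ 2 * SS q ρ ψ := by
  unfold SS
  rw [mul_sum]
  refine sum_le_sum fun x _ => ?_
  have h1 := ad_norm x (Zv q ρ x ψ)
  have h2 := a_norm x (Wv q ρ x ψ)
  have h3 := dot_self_nonneg (al q ρ x ψ - be q ρ x ψ)
  unfold Mv
  unfold al be at h3 ⊢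
  simp only [sub_dotProduct, dotProduct_sub, add_dotProduct, dotProduct_add] at h3 ⊢
  linarith

lemma dot_le (μ : ℝ) (hμ : 0 < μ) (u v : Finset V → ℝ) :
    |u ⬝ᵥ v| ≤ (u ⬝ᵥ u / μ + μ * (v ⬝ᵥ v)) / 2 := by
  have h1 := dot_self_nonneg (u - μ • v)
  have h2 := dot_self_nonneg (u + μ • v)
  simp only [sub_dotProduct, dotProduct_sub, add_dotProduct, dotProduct_add, smul_dotProduct,
    dotProduct_smul, smul_eq_mul] at h1 h2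
  rw [dotProduct_comm v u] at h1 h2
  have h3 : (u ⬝ᵥ u / μ + μ * (v ⬝ᵥ v)) / 2 =
      (u ⬝ᵥ u + μ * (μ * (v ⬝ᵥ v))) / (2 * μ) := by field_simp
  rw [h3, abs_le]
  constructor
  · rw [neg_le, le_div_iff₀ (by positivity)]; linarith
  · rw [le_div_iff₀ (by positivity)]; linarith

lemma sum_dot_le (μ : ℝ) (hμ : 0 < μ) (u v : V → Finset V → ℝ) :
    |∑ x, u x ⬝ᵥ v x| ≤ ((∑ x, u x ⬝ᵥ u x) / μ + μ * ∑ x, v x ⬝ᵥ v x) / 2 := by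
  refine (abs_sum_le_sum_abs _ _).trans ((sum_le_sum fun x _ => dot_le μ hμ (u x) (v x)).trans
    (le_of_eq ?_))
  rw [← sum_div, sum_add_distrib, ← sum_div, ← mul_sum]

lemma Fv_split (q f : V → V → ℝ) (ρ : ℝ) (x : V) (ψ : Finset V → ℝ) :
    Fv f ρ x ψ = ∑ z, f x z • (al q ρ z ψ - be q ρ z ψ) - ∑ z, f x z • Jv q z ψ := by
  unfold Fv
  rw [← sum_sub_distrib]
  refine sum_congr rfl fun z _ => ?_
  rw [et_eq q, smul_sub]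

section
variable (q f : V → V → ℝ) (hq0 : ∀ x, q x x = 0) (hq : ∀ x y, q x y = q y x)
  (hqn : ∀ x y, 0 ≤ q x y) (hf0 : ∀ x, f x x = 0) (hf : ∀ x y, f x y = f y x)
  (δ : ℝ) (hδ : 0 < δ) (hop : OpLe f δ) (ρ : ℝ) (ψ : Finset V → ℝ)

include hop in
lemma AA_le : ∑ x, (∑ z, f x z • (al q ρ z ψ - be q ρ z ψ)) ⬝ᵥ
    (∑ z, f x z • (al q ρ z ψ - be q ρ z ψ)) ≤ δ ^ 2 * (2 * SS q ρ ψ) := by
  refine (op_vec f δ hop _).trans ?_
  exact mul_le_mul_of_nonneg_left (sum_al_be q ρ ψ) (sq_nonneg _)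

include hq0 hq hqn hf0 hf hδ hop in
/-- **First identity.** -/
theorem FM_bound :
    |∑ x, Fv f ρ x ψ ⬝ᵥ Mv q ρ x ψ + (1 - 2 * ρ) * ∑ x, ∑ z, f x z * q x z * G ψ x z| ≤
      2 * δ * SS q ρ ψ + ∑ x, ∑ z, |f x z| * (∑ y, q x y * q y z) * G ψ x x := by
  set A : V → Finset V → ℝ := fun x => ∑ z, f x z • (al q ρ z ψ - be q ρ z ψ) with hA
  have h1 : ∑ x, Fv f ρ x ψ ⬝ᵥ Mv q ρ x ψ = ∑ x, A x ⬝ᵥ Mv q ρ x ψ -
      (1 - 2 * ρ) * ∑ x, ∑ z, f x z * q x z * G ψ x z +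
      ∑ x, ∑ z, f x z * (Jv q z ψ ⬝ᵥ Kv q x ψ) := by
    rw [mul_sum, ← sum_sub_distrib, ← sum_add_distrib]
    refine sum_congr rfl fun x _ => ?_
    rw [Fv_split q, sub_dotProduct, sum_dotProduct (u := fun z => f x z • Jv q z ψ),
      sub_add, sub_right_inj, mul_sum, ← sum_sub_distrib]
    refine sum_congr rfl fun z _ => ?_
    rw [smul_dotProduct, smul_eq_mul, Mv_eq, dotProduct_sub, dotProduct_add, dotProduct_smul,
      dotProduct_smul, Jv_dot_self q hq0, Jv_dot_nn q hq0, smul_eq_mul, smul_eq_mul]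
    by_cases hxz : x = z
    · subst hxz; rw [hf0]; ring
    · rw [if_neg hxz, hq z x, G_comm ψ z x]; ring
  have h2 := JK_sum q f hq0 hq hqn hf0 hf ψ
  have h3 := sum_dot_le δ hδ A (fun x => Mv q ρ x ψ)
  have h4 : ∑ x, A x ⬝ᵥ A x ≤ δ ^ 2 * (2 * SS q ρ ψ) := AA_le q f δ hop ρ ψ
  have h5 := sum_Mv q ρ ψ
  have h6 : |∑ x, A x ⬝ᵥ Mv q ρ x ψ| ≤ 2 * δ * SS q ρ ψ := by
    refine h3.trans ?_
    have h7 : (∑ x, A x ⬝ᵥ A x) / δ ≤ δ * (2 * SS q ρ ψ) := by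
      rw [div_le_iff₀ hδ]; linarith
    have h8 := mul_le_mul_of_nonneg_left h5 hδ.le
    linarith
  have h9 : ∑ x, Fv f ρ x ψ ⬝ᵥ Mv q ρ x ψ + (1 - 2 * ρ) * ∑ x, ∑ z, f x z * q x z * G ψ x z =
      ∑ x, A x ⬝ᵥ Mv q ρ x ψ + ∑ x, ∑ z, f x z * (Jv q z ψ ⬝ᵥ Kv q x ψ) := by
    rw [h1]; ring
  rw [h9]
  refine (abs_add_le _ _).trans ?_
  linarith

include hq0 hδ hop in
/-- **Second identity.** -/
theorem FF_bound :
    ∑ x, Fv f ρ x ψ ⬝ᵥ Fv f ρ x ψ ≤ δ * SS q ρ ψ + δ / 2 * ∑ x, Fv f ρ x ψ ⬝ᵥ Fv f ρ x ψ +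
      ∑ x, ∑ z, f x z ^ 2 * ∑ w, q z w * G ψ z w -
      ∑ x, ∑ z, ∑ w, f x z * f x w * (q z w * G ψ z w) := by
  set A : V → Finset V → ℝ := fun x => ∑ z, f x z • (al q ρ z ψ - be q ρ z ψ) with hA
  have h1 : ∑ x, Fv f ρ x ψ ⬝ᵥ Fv f ρ x ψ = ∑ x, A x ⬝ᵥ Fv f ρ x ψ +
      ∑ x, ∑ z, f x z ^ 2 * ∑ w, q z w * G ψ z w -
      ∑ x, ∑ z, ∑ w, f x z * f x w * (q z w * G ψ z w) := by
    rw [← sum_add_distrib, ← sum_sub_distrib]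
    refine sum_congr rfl fun x _ => ?_
    have e1 : Fv f ρ x ψ ⬝ᵥ Fv f ρ x ψ = A x ⬝ᵥ Fv f ρ x ψ -
        (∑ z, f x z • Jv q z ψ) ⬝ᵥ Fv f ρ x ψ := by
      conv_lhs => rw [Fv_split q f ρ x ψ, ← Fv_split q f ρ x ψ]
      rw [← sub_dotProduct]
      congr 1
      exact Fv_split q f ρ x ψ
    rw [e1, add_sub_assoc, sub_eq_add_neg, add_right_inj, sum_dotProduct, ← sum_neg_distrib,
      ← sum_sub_distrib]
    refine sum_congr rfl fun z _ => ?_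
    have e2 : Jv q z ψ ⬝ᵥ Fv f ρ x ψ = ∑ w, f x w * (q z w * G ψ z w) -
        f x z * ∑ w, q z w * G ψ z w := by
      unfold Fv
      rw [dotProduct_sum]
      have e3 : ∀ w, Jv q z ψ ⬝ᵥ (f x w • et ρ w ψ) = f x w * (q z w * G ψ z w) -
          if w = z then f x w * ∑ w, q z w * G ψ z w else 0 := by
        intro w
        unfold et
        rw [dotProduct_smul, dotProduct_sub, dotProduct_smul, Jv_dot_self q hq0,
          Jv_dot_nn q hq0, smul_eq_mul, smul_eq_mul]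
        split_ifs <;> ring
      simp_rw [e3]
      rw [sum_sub_distrib, sum_ite_eq', if_pos (mem_univ _)]
    rw [smul_dotProduct, smul_eq_mul, e2]
    have e4 : ∑ w, f x z * f x w * (q z w * G ψ z w) = f x z * ∑ w, f x w * (q z w * G ψ z w) := by
      rw [mul_sum]; exact sum_congr rfl fun w _ => by ring
    rw [e4]; ring
  have h3 := sum_dot_le δ hδ A (fun x => Fv f ρ x ψ)
  have h4 : ∑ x, A x ⬝ᵥ A x ≤ δ ^ 2 * (2 * SS q ρ ψ) := AA_le q f δ hop ρ ψ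
  have h7 : (∑ x, A x ⬝ᵥ A x) / δ ≤ δ * (2 * SS q ρ ψ) := by
    rw [div_le_iff₀ hδ]; linarith
  have h8 := (le_abs_self _).trans h3
  linarith

/-- **The variational bound.** -/
theorem SS_ge : -(1 - 2 * ρ) * ∑ x, Fv f ρ x ψ ⬝ᵥ Mv q ρ x ψ -
    (1 - 2 * ρ) ^ 2 / 4 * ∑ x, Fv f ρ x ψ ⬝ᵥ Fv f ρ x ψ ≤ SS q ρ ψ := by
  unfold SS
  rw [mul_sum, mul_sum, ← sum_sub_distrib]
  refine sum_le_sum fun x _ => ?_
  set F := Fv f ρ x ψ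
  set Z := Zv q ρ x ψ with hZ
  set W := Wv q ρ x ψ with hW
  have h1 := dot_self_nonneg (Z + ((1 - 2 * ρ) / 2) • a x F)
  have h2 := dot_self_nonneg (W + ((1 - 2 * ρ) / 2) • ad x F)
  have h3 := norm_split x F
  have h4 : F ⬝ᵥ Mv q ρ x ψ = Z ⬝ᵥ a x F + W ⬝ᵥ ad x F := by
    unfold Mv al be
    rw [dotProduct_comm, add_dotProduct, ad_dot, a_dot]
  simp only [add_dotProduct, dotProduct_add, smul_dotProduct, dotProduct_smul, smul_eq_mul] at h1 h2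
  rw [dotProduct_comm (a x F) Z] at h1
  rw [dotProduct_comm (ad x F) W] at h2
  rw [h4]
  have h5 : (1 - 2 * ρ) / 2 * ((1 - 2 * ρ) / 2 * (a x F ⬝ᵥ a x F)) +
      (1 - 2 * ρ) / 2 * ((1 - 2 * ρ) / 2 * (ad x F ⬝ᵥ ad x F)) =
      (1 - 2 * ρ) ^ 2 / 4 * (F ⬝ᵥ F) := by
    rw [← h3]; ring
  linarith

end

end Run7.h259.BEC
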