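import Pool.Agent.Run7.h259.BEC.Key

/-!
# The inequality for the polynomial `P/2 + P²/8 + P³/16 + 5 P⁴/16`
-/

set_option autoImplicit false
set_option linter.unusedSectionVars false

noncomputable section

namespace Run7.h259.BEC

open Finset Matrix

variable {V : Type*} [Fintype V] [DecidableEq V]
variable {Gr : SimpleGraph V} [DecidableRel Gr.Adj] {D c : ℕ}

lemma QQ_self (x : V) : QQ (PP Gr D) x x = RR (PP Gr D) x x := by
  unfold QQ
  simp only [Matrix.add_apply, Matrix.smul_apply, smul_eq_mul, PP_self]; ring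

lemma QQ_apply (x y : V) : QQ (PP Gr D) x y = PP Gr D x y / 2 + RR (PP Gr D) x y := by
  unfold QQ
  simp only [Matrix.add_apply, Matrix.smul_apply, smul_eq_mul]; ring

/-- `∑_y Q(x,y) γ(x,y)` is at most the mean of the densities -/
lemma weight_sum (h : Good Gr D c) (ψ : Finset V → ℝ) (N : ℕ) (hN : Part N ψ) :
    ∑ x, ∑ y, QQ (PP Gr D) x y * ((G ψ x x + G ψ y y) / 2) = N * (ψ ⬝ᵥ ψ) := by
  set Q := QQ (PP Gr D) with hQ
  have hrow : ∀ x, ∑ y, Q x y = 1 := QQ_row _ h.row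
  have hsym : ∀ x y, Q x y = Q y x := QQ_symm _ PP_symm
  have hcol : ∀ y, ∑ x, Q x y = 1 := by
    intro y
    rw [← hrow y]
    exact sum_congr rfl fun x _ => hsym x y
  have h1 : ∀ x y, Q x y * ((G ψ x x + G ψ y y) / 2) =
      Q x y * (G ψ x x / 2) + Q x y * (G ψ y y / 2) := by intro x y; ring
  simp_rw [h1, sum_add_distrib]
  have e1 : ∑ x, ∑ y, Q x y * (G ψ x x / 2) = N * (ψ ⬝ᵥ ψ) / 2 := by
    simp_rw [← sum_mul, hrow, one_mul]
    rw [← sum_div, sum_G N ψ hN]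
  have e2 : ∑ x, ∑ y, Q x y * (G ψ y y / 2) = N * (ψ ⬝ᵥ ψ) / 2 := by
    rw [sum_comm]
    simp_rw [← sum_mul, hcol, one_mul]
    rw [← sum_div, sum_G N ψ hN]
  rw [e1, e2]; ring

theorem main1 (h : Good Gr D c) (ψ : Finset V → ℝ) (N : ℕ) (hN : Part N ψ) (ρ : ℝ)
    (hρ : ρ * Fintype.card V = N) (θ : ℝ) (hθ : θ = (1 + c) / (D : ℝ) ^ 2) (hθ1 : θ ≤ 1)
    (d s : ℝ) (hd : d = 1 / (8 * D)) (hs : s = 1 / (1 - d)) :
    0 ≤ N * (1 - ρ) * (ψ ⬝ᵥ ψ) +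
      s ^ 2 * (Gam ψ (QQ (PP Gr D) * QQ (PP Gr D)) - 2 * Gam ψ (QQ (PP Gr D))) +
      2 * s * d * (N * (ψ ⬝ᵥ ψ)) +
      s ^ 2 / (4 * D) * (N * (ψ ⬝ᵥ ψ) - 2 * kap ψ (PP Gr D)) + 10 * θ * (N * (ψ ⬝ᵥ ψ)) := by
  have hD := h.D1
  have hZ : 0 ≤ ψ ⬝ᵥ ψ := dot_self_nonneg ψ
  have hNZ : 0 ≤ (N : ℝ) * (ψ ⬝ᵥ ψ) := by positivity
  have hθ0 : 0 ≤ θ := by rw [hθ]; positivity
  have hd0 : 0 < d := by rw [hd]; positivity
  have hd8 : d ≤ 1 / 8 := by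
    rw [hd]; apply one_div_le_one_div_of_le <;> linarith
  have hs1 : 1 ≤ s := by rw [hs, le_div_iff₀ (by linarith)]; linarith
  have hs2 : s ≤ 8 / 7 := by rw [hs, div_le_div_iff₀ (by linarith) (by norm_num)]; linarith
  have hsd : s + s ^ 2 * d = s ^ 2 := by
    have : (1 - d) ≠ 0 := by linarith
    rw [hs]; field_simp; ring
  set P := PP Gr D with hP
  set Q := QQ P with hQ
  set R := RR P with hR
  have hrow : ∀ x, ∑ y, Q x y = 1 := QQ_row _ h.row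
  have hsym : ∀ x y, Q x y = Q y x := QQ_symm _ PP_symm
  have hQ0 : ∀ x y, 0 ≤ Q x y := QQ_nonneg _ PP_nonneg
  have hR0 : ∀ x y, 0 ≤ R x y := RR_nonneg _ PP_nonneg
  have hRrow : ∀ x, ∑ y, R x y = 1 / 2 := RR_row _ h.row
  have hdiag : ∀ x, d ≤ Q x x ∧ Q x x ≤ d + θ := by
    intro x
    have := h.RR_diag x
    rw [hQ, QQ_self, hd, hθ]; exact this
  have g := glob ψ N hN (s • Q) (fun x y => by
    simp only [Matrix.smul_apply, smul_eq_mul]; rw [hsym x y]) ρ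
  have h1 : ((1 - ρ) ^ 2 * N + ρ ^ 2 * (Fintype.card V - N)) = N * (1 - ρ) := by
    rw [← hρ]; ring
  rw [h1, Gam_smul] at g
  have hQQ : (s • Q) * (s • Q) = s ^ 2 • (Q * Q) := by
    rw [smul_mul_smul_comm, sq]
  rw [hQQ, Gam_smul] at g
  simp only [Matrix.smul_apply, smul_eq_mul] at g
  -- the diagonal terms
  have t1 : ∑ x, s * Q x x * G ψ x x ≤ s * (d + θ) * (N * (ψ ⬝ᵥ ψ)) := by
    rw [← sum_G N ψ hN, mul_sum]
    refine sum_le_sum fun x _ => ?_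
    have := G_self_nonneg ψ x
    have := (hdiag x).2
    gcongr
  have t4 : ∑ x, (s * Q x x) ^ 2 * G ψ x x ≤ s ^ 2 * (d + θ) ^ 2 * (N * (ψ ⬝ᵥ ψ)) := by
    rw [← sum_G N ψ hN, mul_sum]
    refine sum_le_sum fun x _ => ?_
    have h2 := G_self_nonneg ψ x
    have h3 := (hdiag x).2
    have h4 := hQ0 x x
    have h5 : (s * Q x x) ^ 2 ≤ s ^ 2 * (d + θ) ^ 2 := by
      rw [mul_pow]; gcongr
    exact mul_le_mul_of_nonneg_right h5 h2
  have t3 : s ^ 2 * (d * Gam ψ Q - θ * (N * (ψ ⬝ᵥ ψ))) ≤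
      ∑ x, s * Q x x * ∑ y, s * Q x y * G ψ x y := by
    have e1 : s ^ 2 * (d * Gam ψ Q - θ * (N * (ψ ⬝ᵥ ψ))) = ∑ x, s ^ 2 *
        (d * ∑ y, Q x y * G ψ x y - θ * ∑ y, Q x y * ((G ψ x x + G ψ y y) / 2)) := by
      rw [← mul_sum, sum_sub_distrib, ← mul_sum, ← mul_sum, hQ, weight_sum h ψ N hN]
      rfl
    rw [e1]
    refine sum_le_sum fun x _ => ?_
    have e2 : s * Q x x * ∑ y, s * Q x y * G ψ x y = s ^ 2 * (Q x x * ∑ y, Q x y * G ψ x y) := by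
      have : ∀ y, s * Q x y * G ψ x y = s * (Q x y * G ψ x y) := by intro y; ring
      simp_rw [this]; rw [← mul_sum]; ring
    rw [e2]
    refine mul_le_mul_of_nonneg_left ?_ (by positivity)
    have e3 : |∑ y, Q x y * G ψ x y| ≤ ∑ y, Q x y * ((G ψ x x + G ψ y y) / 2) := by
      refine (abs_sum_le_sum_abs _ _).trans (sum_le_sum fun y _ => ?_)
      rw [abs_mul, abs_of_nonneg (hQ0 x y)]
      exact mul_le_mul_of_nonneg_left (abs_G_le ψ x y) (hQ0 x y)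
    obtain ⟨h5, h6⟩ := hdiag x
    set u := ∑ y, Q x y * G ψ x y
    set w := ∑ y, Q x y * ((G ψ x x + G ψ y y) / 2)
    have h7 : |(Q x x - d) * u| ≤ θ * w := by
      rw [abs_mul, abs_of_nonneg (by linarith)]
      have : 0 ≤ |u| := abs_nonneg u
      exact mul_le_mul (by linarith) e3 this hθ0
    have h8 := neg_abs_le ((Q x x - d) * u)
    nlinarith
  -- the commutator terms
  have t5 : ∑ x, ∑ y, (if y = x then 0 else s * Q x y) ^ 2 * (G ψ x x - 2 * K2 ψ x y) ≤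
      s ^ 2 / (4 * D) * (N * (ψ ⬝ᵥ ψ) - 2 * kap ψ P) + s ^ 2 * (3 / 2 * θ) * (N * (ψ ⬝ᵥ ψ)) := by
    have e1 : ∀ x y, (if y = x then 0 else s * Q x y) ^ 2 * (G ψ x x - 2 * K2 ψ x y) ≤
        s ^ 2 / 4 * (P x y / D * (G ψ x x - 2 * K2 ψ x y)) +
          s ^ 2 * (θ * (P x y + R x y) * G ψ x x) := by
      intro x y
      have g0 := G_self_nonneg ψ x
      have k0 := K2_nonneg ψ x y
      by_cases hxy : y = x
      · subst hxy
        rw [if_pos rfl, hP, PP_self]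
        have h2 := hR0 y y
        have h3 : 0 ≤ s ^ 2 * (θ * (0 + R y y) * G ψ y y) := by positivity
        have h4 : (0 : ℝ) ^ 2 * (G ψ y y - 2 * K2 ψ y y) = 0 := by ring
        have h5 : s ^ 2 / 4 * ((0 : ℝ) / D * (G ψ y y - 2 * K2 ψ y y)) = 0 := by
          rw [zero_div, zero_mul, mul_zero]
        rw [h4, h5]
        linarith
      · rw [if_neg hxy]
        have h2 : Q x y = P x y / 2 + R x y := QQ_apply x y
        have h3 : R x y ≤ θ := by rw [hθ]; exact h.RR_off x y (Ne.symm hxy)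
        have h4 := hR0 x y
        have h5 : 0 ≤ P x y := PP_nonneg x y
        have h6 : P x y ^ 2 = P x y / D := PP_sq x y
        have h7 : (s * Q x y) ^ 2 = s ^ 2 / 4 * (P x y / D) + s ^ 2 * (R x y * (P x y + R x y)) := by
          rw [h2, ← h6]; ring
        rw [h7, add_mul]
        have h8 : s ^ 2 * (R x y * (P x y + R x y)) * (G ψ x x - 2 * K2 ψ x y) ≤
            s ^ 2 * (θ * (P x y + R x y) * G ψ x x) := by
          rw [mul_assoc]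
          refine mul_le_mul_of_nonneg_left ?_ (by positivity)
          have h9 : R x y * (P x y + R x y) ≤ θ * (P x y + R x y) :=
            mul_le_mul_of_nonneg_right h3 (by positivity)
          have h10 : 0 ≤ R x y * (P x y + R x y) := by positivity
          have h11 : R x y * (P x y + R x y) * (G ψ x x - 2 * K2 ψ x y) ≤
              R x y * (P x y + R x y) * G ψ x x :=
            mul_le_mul_of_nonneg_left (by linarith) h10
          exact h11.trans (mul_le_mul_of_nonneg_right h9 g0)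
        have h12 : s ^ 2 / 4 * (P x y / D) * (G ψ x x - 2 * K2 ψ x y) =
          s ^ 2 / 4 * (P x y / D * (G ψ x x - 2 * K2 ψ x y)) := by ring
        rw [h12]
        linarith
    refine (sum_le_sum fun x _ => sum_le_sum fun y _ => e1 x y).trans (le_of_eq ?_)
    simp only [sum_add_distrib, ← mul_sum]
    rw [hP, comm_sum h ψ N hN, ← hP]
    have e2 : ∀ x, ∑ y, θ * (P x y + R x y) * G ψ x x = 3 / 2 * θ * G ψ x x := by
      intro x
      rw [← sum_mul, ← mul_sum, sum_add_distrib, hRrow, hP, h.row x]; ring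
    simp_rw [e2]
    rw [← mul_sum, sum_G N ψ hN]
    ring
  -- conclusion
  have hD0 : (0 : ℝ) < D := by linarith
  have hd2 : d ^ 2 ≤ θ / 64 := by
    have hc : (0 : ℝ) ≤ c := Nat.cast_nonneg c
    rw [hd, hθ, div_pow, one_pow, div_div, div_le_div_iff₀ (by positivity) (by positivity)]
    nlinarith [sq_nonneg (D : ℝ), mul_nonneg hc (sq_nonneg (D : ℝ))]
  have hth2 : θ ^ 2 ≤ θ := by nlinarith
  have hs3 : s ^ 2 ≤ 64 / 49 := by nlinarith
  have hcoef : 2 * s * θ + 2 * s ^ 2 * θ + s ^ 2 * (d + θ) ^ 2 + s ^ 2 * (3 / 2 * θ) ≤ 10 * θ := by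
    have e1 : (d + θ) ^ 2 ≤ 2 * d ^ 2 + 2 * θ ^ 2 := by nlinarith [sq_nonneg (d - θ)]
    have e2 : (d + θ) ^ 2 ≤ 65 / 32 * θ := by linarith
    have e3 : s ^ 2 * (d + θ) ^ 2 ≤ 64 / 49 * (65 / 32 * θ) :=
      mul_le_mul hs3 e2 (by positivity) (by norm_num)
    have e4 : s * θ ≤ 8 / 7 * θ := mul_le_mul_of_nonneg_right hs2 hθ0
    have e5 : s ^ 2 * θ ≤ 64 / 49 * θ := mul_le_mul_of_nonneg_right hs3 hθ0
    nlinarith
  have hfin := mul_le_mul_of_nonneg_right hcoef hNZ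
  have e6 : s * Gam ψ Q + s ^ 2 * (d * Gam ψ Q) = s ^ 2 * Gam ψ Q := by
    calc s * Gam ψ Q + s ^ 2 * (d * Gam ψ Q) = (s + s ^ 2 * d) * Gam ψ Q := by ring
      _ = s ^ 2 * Gam ψ Q := by rw [hsd]
  have e7 : 0 ≤ N * (1 - ρ) * (ψ ⬝ᵥ ψ) - 2 * (s * Gam ψ Q - s * (d + θ) * (N * (ψ ⬝ᵥ ψ))) +
      s ^ 2 * Gam ψ (Q * Q) - 2 * (s ^ 2 * (d * Gam ψ Q - θ * (N * (ψ ⬝ᵥ ψ)))) +
      s ^ 2 * (d + θ) ^ 2 * (N * (ψ ⬝ᵥ ψ)) +
      (s ^ 2 / (4 * D) * (N * (ψ ⬝ᵥ ψ) - 2 * kap ψ P) + s ^ 2 * (3 / 2 * θ) * (N * (ψ ⬝ᵥ ψ))) := by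
    linarith
  linarith

/-- **The key inequality.** -/
theorem key (h : Good Gr D c) (ψ : Finset V → ℝ) (N : ℕ) (hN : Part N ψ) (ρ : ℝ)
    (hρ0 : 0 ≤ ρ)
    (hρ : ρ * Fintype.card V = N) (θ : ℝ) (hθ : θ = (1 + c) / (D : ℝ) ^ 2) (hθ1 : θ ≤ 1)
    (L : ℝ) (hL : 0 < L) (hLD : L ^ 2 = D) (X : ℝ)
    (hX : X = N * (1 - ρ) * (ψ ⬝ᵥ ψ) - Gam ψ (PP Gr D)) :
    2 * Gam ψ (QQ (PP Gr D)) - Gam ψ (QQ (PP Gr D) * QQ (PP Gr D)) - Gam ψ (PP Gr D) ≤
      N * (1 - ρ) * (ψ ⬝ᵥ ψ) / (4 * D) + X * (1 + 1 / (2 * L)) +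
        (1 / L ^ 3 + 10 * θ) * (N * (ψ ⬝ᵥ ψ)) := by
  have hD := h.D1
  have hD0 : (0 : ℝ) < D := by linarith
  set d : ℝ := 1 / (8 * D) with hd
  set s : ℝ := 1 / (1 - d) with hs
  have m1 := main1 h ψ N hN ρ hρ θ hθ hθ1 d s hd hs
  have b1 := second h ψ N hN ρ hρ
  have b2 := second' h ψ N hN
  have b3 := covar h ψ N hN ρ hρ (1 / L)
  have hZ : 0 ≤ ψ ⬝ᵥ ψ := dot_self_nonneg ψ
  have hNZ : 0 ≤ (N : ℝ) * (ψ ⬝ᵥ ψ) := by positivity
  set M := (N : ℝ) * (ψ ⬝ᵥ ψ) with hM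
  set g1 := Gam ψ (PP Gr D)
  set g2 := Gam ψ (PP Gr D * PP Gr D)
  set q1 := Gam ψ (QQ (PP Gr D))
  set q2 := Gam ψ (QQ (PP Gr D) * QQ (PP Gr D))
  set k := kap ψ (PP Gr D)
  set v := V2 ψ (PP Gr D)
  have e1 : N * (1 - ρ) * (ψ ⬝ᵥ ψ) = (1 - ρ) * M := by rw [hM]; ring
  have e2 : N * ρ * (ψ ⬝ᵥ ψ) = ρ * M := by rw [hM]; ring
  rw [e1] at b1 b3 hX m1 ⊢
  rw [e2] at b3
  have hk0 : 0 ≤ k := by
    refine sum_nonneg fun x _ => sum_nonneg fun y _ => mul_nonneg (PP_nonneg x y) (K2_nonneg ψ x y)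
  -- lower bound for k
  have hv : v - ρ * M ≤ 2 * X + 2 * M / D := by
    have e3 : (M - 2 * k) / D ≤ M / D := by gcongr; linarith
    have e4 : (1 + 1 / (D : ℝ)) * M = M + M / D := by ring
    have e5 : 2 * M / (D : ℝ) = M / D + M / D := by ring
    rw [e4] at b2
    rw [e5]
    linarith
  have hk : 2 * ρ * M - 3 * M / L - 2 * L * X ≤ 2 * k := by
    have e3 : 0 ≤ L * ((1 / L) ^ 2 * ((1 - ρ) * M) + 2 * (1 / L) * (k - ρ * M) + (v - ρ * M)) :=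
      mul_nonneg hL.le b3
    have e4 : L * ((1 / L) ^ 2 * ((1 - ρ) * M) + 2 * (1 / L) * (k - ρ * M) + (v - ρ * M)) =
        (1 - ρ) * M / L + 2 * (k - ρ * M) + L * (v - ρ * M) := by
      field_simp
    rw [e4] at e3
    have e5 : L * (v - ρ * M) ≤ L * (2 * X + 2 * M / D) := mul_le_mul_of_nonneg_left hv hL.le
    have e6 : L * (2 * X + 2 * M / D) = 2 * L * X + 2 * M / L := by
      rw [← hLD]; field_simp
    have e7 : (1 - ρ) * M / L ≤ M / L := by gcongr; nlinarith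
    have e8 : 3 * M / L = M / L + 2 * M / L := by ring
    rw [e8]
    linarith
  -- combine
  have hd0 : 0 < d := by rw [hd]; positivity
  have hd8 : d ≤ 1 / 8 := by
    rw [hd]; apply one_div_le_one_div_of_le <;> linarith
  have hs0 : 0 < s := by rw [hs]; apply one_div_pos.mpr; linarith
  have hs1 : s * (1 - d) = 1 := by
    have : (1 - d) ≠ 0 := by linarith
    rw [hs]; field_simp
  have m2 : 0 ≤ (1 - d) ^ 2 * ((1 - ρ) * M + s ^ 2 * (q2 - 2 * q1) + 2 * s * d * M +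
      s ^ 2 / (4 * D) * (M - 2 * k) + 10 * θ * M) := mul_nonneg (sq_nonneg _) m1
  have e3 : (1 - d) ^ 2 * ((1 - ρ) * M + s ^ 2 * (q2 - 2 * q1) + 2 * s * d * M +
      s ^ 2 / (4 * D) * (M - 2 * k) + 10 * θ * M) =
      (1 - d) ^ 2 * ((1 - ρ) * M) + (q2 - 2 * q1) + 2 * (1 - d) * d * M +
      (M - 2 * k) / (4 * D) + (1 - d) ^ 2 * (10 * θ * M) := by
    have e4 : (1 - d) ^ 2 * (s ^ 2 * (q2 - 2 * q1)) = (s * (1 - d)) ^ 2 * (q2 - 2 * q1) := by ring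
    have e5 : (1 - d) ^ 2 * (2 * s * d * M) = (s * (1 - d)) * (2 * (1 - d) * d * M) := by ring
    have e6 : (1 - d) ^ 2 * (s ^ 2 / (4 * D) * (M - 2 * k)) =
      (s * (1 - d)) ^ 2 * ((M - 2 * k) / (4 * D)) := by ring
    rw [mul_add, mul_add, mul_add, mul_add, e4, e5, e6, hs1]; ring
  rw [e3] at m2
  have hθ0 : 0 ≤ θ := by rw [hθ]; positivity
  have e7 : (1 - d) ^ 2 * (10 * θ * M) ≤ 10 * θ * M := by
    have : (1 - d) ^ 2 ≤ 1 := by nlinarith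
    have h0 : 0 ≤ 10 * θ * M := by positivity
    nlinarith
  have e8 : (M - 2 * k) / (4 * D) ≤ (M - (2 * ρ * M - 3 * M / L - 2 * L * X)) / (4 * D) := by
    gcongr
  have e9 : (M - (2 * ρ * M - 3 * M / L - 2 * L * X)) / (4 * D) =
      (M - 2 * ρ * M) / (4 * D) + 3 * M / (4 * L ^ 3) + X / (2 * L) := by
    rw [← hLD]; field_simp; ring
  have hdD : d * (4 * D) = 1 / 2 := by rw [hd]; field_simp; norm_num
  have e10 : (1 - d) ^ 2 * ((1 - ρ) * M) + 2 * (1 - d) * d * M + (M - 2 * ρ * M) / (4 * D) ≤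
      (1 - ρ) * M + (1 - ρ) * M / (4 * D) := by
    have e11 : (M - 2 * ρ * M) / (4 * (D : ℝ)) = 2 * d * (M - 2 * ρ * M) := by
      rw [hd]; field_simp; ring
    have e12 : (1 - ρ) * M / (4 * (D : ℝ)) = 2 * d * ((1 - ρ) * M) := by
      rw [hd]; field_simp; ring
    rw [e11, e12]
    have e13 : 0 ≤ d ^ 2 * M := by positivity
    have e14 : 0 ≤ d ^ 2 * M * ρ := by positivity
    have e17 : (1 - d) ^ 2 * ((1 - ρ) * M) + 2 * (1 - d) * d * M + 2 * d * (M - 2 * ρ * M) =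
      (1 - ρ) * M + 2 * d * ((1 - ρ) * M) - d ^ 2 * M - d ^ 2 * M * ρ := by ring
    rw [e17]
    linarith
  have e15 : 3 * M / (4 * L ^ 3) ≤ 1 / L ^ 3 * M := by
    have h0 : 0 ≤ M / L ^ 3 := by positivity
    have h1 : 3 * M / (4 * L ^ 3) = 3 / 4 * (M / L ^ 3) := by field_simp
    have h2 : 1 / L ^ 3 * M = M / L ^ 3 := by ring
    rw [h1, h2]; linarith
  have e16 : X * (1 + 1 / (2 * L)) = X + X / (2 * L) := by ring
  rw [e16]
  linarith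
end Run7.h259.BEC
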