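import Mathlib

/-!
# Hard-core bosons on a finite set: operators and the sum-of-squares inequality

Real wave functions `ψ : Finset V → ℝ` (occupation sets).
-/

set_option autoImplicit false
set_option linter.unusedSectionVars false

namespace Run7.h259.BEC

open Finset Matrix

variable {V : Type*} [Fintype V] [DecidableEq V]

/-- the annihilation operator `a_x` -/
def a (x : V) : (Finset V → ℝ) →ₗ[ℝ] (Finset V → ℝ) where
  toFun ψ S := if x ∈ S then 0 else ψ (insert x S)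
  map_add' φ ψ := by
    ext S; simp only [Pi.add_apply]; split_ifs <;> simp
  map_smul' c ψ := by
    ext S; simp only [Pi.smul_apply, smul_eq_mul, RingHom.id_apply]; split_ifs <;> simp

/-- the creation operator `a_x†` -/
def ad (x : V) : (Finset V → ℝ) →ₗ[ℝ] (Finset V → ℝ) where
  toFun ψ S := if x ∈ S then ψ (S.erase x) else 0
  map_add' φ ψ := by
    ext S; simp only [Pi.add_apply]; split_ifs <;> simp
  map_smul' c ψ := by
    ext S; simp only [Pi.smul_apply, smul_eq_mul, RingHom.id_apply]; split_ifs <;> simp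

/-- the projection on the configurations with `x` occupied -/
def nn (x : V) : (Finset V → ℝ) →ₗ[ℝ] (Finset V → ℝ) where
  toFun ψ S := if x ∈ S then ψ S else 0
  map_add' φ ψ := by
    ext S; simp only [Pi.add_apply]; split_ifs <;> simp
  map_smul' c ψ := by
    ext S; simp only [Pi.smul_apply, smul_eq_mul, RingHom.id_apply]; split_ifs <;> simp

/-- the projection on the configurations with `x` empty -/
def mm (x : V) : (Finset V → ℝ) →ₗ[ℝ] (Finset V → ℝ) where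
  toFun ψ S := if x ∈ S then 0 else ψ S
  map_add' φ ψ := by
    ext S; simp only [Pi.add_apply]; split_ifs <;> simp
  map_smul' c ψ := by
    ext S; simp only [Pi.smul_apply, smul_eq_mul, RingHom.id_apply]; split_ifs <;> simp

lemma a_apply (x : V) (ψ : Finset V → ℝ) (S : Finset V) :
    a x ψ S = if x ∈ S then 0 else ψ (insert x S) := rfl
lemma ad_apply (x : V) (ψ : Finset V → ℝ) (S : Finset V) :
    ad x ψ S = if x ∈ S then ψ (S.erase x) else 0 := rfl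
lemma nn_apply (x : V) (ψ : Finset V → ℝ) (S : Finset V) :
    nn x ψ S = if x ∈ S then ψ S else 0 := rfl
lemma mm_apply (x : V) (ψ : Finset V → ℝ) (S : Finset V) :
    mm x ψ S = if x ∈ S then 0 else ψ S := rfl

/-- adjointness -/
lemma a_dot (x : V) (φ ψ : Finset V → ℝ) : a x φ ⬝ᵥ ψ = φ ⬝ᵥ ad x ψ := by
  unfold dotProduct
  have h1 : ∑ S, a x φ S * ψ S = ∑ S ∈ univ.filter (fun S : Finset V => x ∉ S), φ (insert x S) * ψ S := by
    rw [sum_filter]
    refine sum_congr rfl fun S _ => ?_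
    rw [a_apply]
    by_cases h : x ∈ S <;> simp [h]
  have h2 : ∑ S, φ S * ad x ψ S = ∑ S ∈ univ.filter (fun S : Finset V => x ∈ S), φ S * ψ (S.erase x) := by
    rw [sum_filter]
    refine sum_congr rfl fun S _ => ?_
    rw [ad_apply]
    by_cases h : x ∈ S <;> simp [h]
  rw [h1, h2]
  refine sum_nbij' (fun S => insert x S) (fun S => S.erase x) ?_ ?_ ?_ ?_ ?_
  · intro S hS; simp
  · intro S hS; simp
  · intro S hS
    simp only [mem_filter, mem_univ, true_and] at hS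
    exact erase_insert hS
  · intro S hS
    simp only [mem_filter, mem_univ, true_and] at hS
    exact insert_erase hS
  · intro S hS
    simp only [mem_filter, mem_univ, true_and] at hS
    rw [erase_insert hS]

lemma ad_dot (x : V) (φ ψ : Finset V → ℝ) : ad x φ ⬝ᵥ ψ = φ ⬝ᵥ a x ψ := by
  rw [dotProduct_comm, ← a_dot, dotProduct_comm]

lemma nn_dot (x : V) (φ ψ : Finset V → ℝ) : nn x φ ⬝ᵥ ψ = φ ⬝ᵥ nn x ψ := by
  unfold dotProduct
  refine sum_congr rfl fun S _ => ?_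
  rw [nn_apply, nn_apply]
  by_cases h : x ∈ S <;> simp [h]

lemma mm_dot (x : V) (φ ψ : Finset V → ℝ) : mm x φ ⬝ᵥ ψ = φ ⬝ᵥ mm x ψ := by
  unfold dotProduct
  refine sum_congr rfl fun S _ => ?_
  rw [mm_apply, mm_apply]
  by_cases h : x ∈ S <;> simp [h]

lemma nn_nn (x : V) (ψ : Finset V → ℝ) : nn x (nn x ψ) = nn x ψ := by
  ext S; simp only [nn_apply]; by_cases h : x ∈ S <;> simp [h]

lemma mm_mm (x : V) (ψ : Finset V → ℝ) : mm x (mm x ψ) = mm x ψ := by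
  ext S; simp only [mm_apply]; by_cases h : x ∈ S <;> simp [h]

lemma nn_add_mm (x : V) (ψ : Finset V → ℝ) : nn x ψ + mm x ψ = ψ := by
  ext S; simp only [nn_apply, mm_apply, Pi.add_apply]; by_cases h : x ∈ S <;> simp [h]

lemma mm_a (x : V) (ψ : Finset V → ℝ) : mm x (a x ψ) = a x ψ := by
  ext S; simp only [mm_apply, a_apply]; by_cases h : x ∈ S <;> simp [h]

lemma nn_ad (x : V) (ψ : Finset V → ℝ) : nn x (ad x ψ) = ad x ψ := by
  ext S; simp only [nn_apply, ad_apply]; by_cases h : x ∈ S <;> simp [h]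

lemma a_ad_self (x : V) (ψ : Finset V → ℝ) : a x (ad x ψ) = mm x ψ := by
  ext S; simp only [a_apply, ad_apply, mm_apply]
  by_cases h : x ∈ S
  · simp [h]
  · simp [h, erase_insert h]

lemma ad_a_self (x : V) (ψ : Finset V → ℝ) : ad x (a x ψ) = nn x ψ := by
  ext S; simp only [a_apply, ad_apply, nn_apply]
  by_cases h : x ∈ S
  · simp [h, insert_erase h]
  · simp [h]

lemma a_ad (x y : V) (h : x ≠ y) (ψ : Finset V → ℝ) : a x (ad y ψ) = ad y (a x ψ) := by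
  ext S; simp only [a_apply, ad_apply]
  by_cases hx : x ∈ S
  · by_cases hy : y ∈ S
    · simp [hx, hy, h]
    · simp [hx, hy]
  · by_cases hy : y ∈ S
    · have h1 : x ∉ S.erase y := fun hh => hx (mem_of_mem_erase hh)
      have h2 : y ∈ insert x S := mem_insert_of_mem hy
      simp only [hx, hy, h1, h2, if_true, if_false]
      congr 1
      rw [erase_insert_of_ne h]
    · have h2 : y ∉ insert x S := by simp [hy, h.symm]
      simp [hx, hy, h2]

lemma nn_a (x y : V) (h : x ≠ y) (ψ : Finset V → ℝ) : nn x (a y ψ) = a y (nn x ψ) := by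
  ext S; simp only [a_apply, nn_apply]
  by_cases hx : x ∈ S <;> by_cases hy : y ∈ S <;> simp [hx, hy, h]

lemma nn_ad' (x y : V) (h : x ≠ y) (ψ : Finset V → ℝ) : nn x (ad y ψ) = ad y (nn x ψ) := by
  ext S; simp only [ad_apply, nn_apply]
  by_cases hx : x ∈ S <;> by_cases hy : y ∈ S <;> simp [hx, hy, h]

/-- the one-particle density matrix -/
def G (ψ : Finset V → ℝ) (x y : V) : ℝ := a x ψ ⬝ᵥ a y ψ

/-- the pair density -/
def K2 (ψ : Finset V → ℝ) (x y : V) : ℝ := nn x ψ ⬝ᵥ nn y ψ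

lemma G_comm (ψ : Finset V → ℝ) (x y : V) : G ψ x y = G ψ y x := dotProduct_comm _ _

lemma K2_comm (ψ : Finset V → ℝ) (x y : V) : K2 ψ x y = K2 ψ y x := dotProduct_comm _ _

lemma G_self (ψ : Finset V → ℝ) (x : V) : G ψ x x = ψ ⬝ᵥ nn x ψ := by
  rw [G, a_dot, ad_a_self]

lemma dot_self_nonneg (φ : Finset V → ℝ) : 0 ≤ φ ⬝ᵥ φ :=
  sum_nonneg fun _ _ => mul_self_nonneg _

lemma G_self_nonneg (ψ : Finset V → ℝ) (x : V) : 0 ≤ G ψ x x := dot_self_nonneg _

lemma K2_nonneg (ψ : Finset V → ℝ) (x y : V) : 0 ≤ K2 ψ x y := by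
  unfold K2 dotProduct
  refine sum_nonneg fun S _ => ?_
  rw [nn_apply, nn_apply]
  by_cases hx : x ∈ S <;> by_cases hy : y ∈ S <;> simp [hx, hy, mul_self_nonneg]

lemma K2_self (ψ : Finset V → ℝ) (x : V) : K2 ψ x x = G ψ x x := by
  rw [G_self, K2, nn_dot, nn_nn]

lemma K2_le (ψ : Finset V → ℝ) (x y : V) : K2 ψ x y ≤ G ψ x x := by
  rw [← K2_self]
  unfold K2 dotProduct
  refine sum_le_sum fun S _ => ?_
  rw [nn_apply, nn_apply]
  by_cases hx : x ∈ S <;> by_cases hy : y ∈ S <;> simp [hx, hy, mul_self_nonneg]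

lemma abs_G_le (ψ : Finset V → ℝ) (x y : V) : |G ψ x y| ≤ (G ψ x x + G ψ y y) / 2 := by
  have h1 : 0 ≤ (a x ψ - a y ψ) ⬝ᵥ (a x ψ - a y ψ) := dot_self_nonneg _
  have h2 : 0 ≤ (a x ψ + a y ψ) ⬝ᵥ (a x ψ + a y ψ) := dot_self_nonneg _
  simp only [sub_dotProduct, dotProduct_sub, add_dotProduct, dotProduct_add] at h1 h2
  have h3 := G_comm ψ x y
  unfold G at *
  rw [abs_le]
  constructor <;> linarith

/-- the mixed term for two different sites -/
lemma mixed_ne (ψ : Finset V → ℝ) (x y z : V) (hxy : x ≠ y) (hxz : x ≠ z) (hyz : y ≠ z) :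
    mm x (a y ψ) ⬝ᵥ mm x (a z ψ) + nn x (ad y ψ) ⬝ᵥ nn x (ad z ψ) = G ψ y z := by
  have h1 : mm x (a y ψ) ⬝ᵥ mm x (a z ψ) = a y ψ ⬝ᵥ mm x (a z ψ) := by
    rw [mm_dot, mm_mm]
  have h2 : nn x (ad y ψ) ⬝ᵥ nn x (ad z ψ) = a y ψ ⬝ᵥ nn x (a z ψ) := by
    calc nn x (ad y ψ) ⬝ᵥ nn x (ad z ψ) = ad y ψ ⬝ᵥ ad z (nn x ψ) := by
          rw [nn_dot, nn_nn, nn_ad' x z hxz]
      _ = ψ ⬝ᵥ ad z (a y (nn x ψ)) := by rw [ad_dot, a_ad y z hyz]
      _ = a z ψ ⬝ᵥ nn x (a y ψ) := by rw [← a_dot, nn_a x y hxy]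
      _ = a y ψ ⬝ᵥ nn x (a z ψ) := by rw [← nn_dot, dotProduct_comm]
  rw [h1, h2, ← dotProduct_add, add_comm, nn_add_mm]
  rfl

/-- the diagonal terms -/
lemma mixed_eq (ψ : Finset V → ℝ) (x y : V) (hxy : x ≠ y) :
    mm x (a y ψ) ⬝ᵥ mm x (a y ψ) + nn x (ad y ψ) ⬝ᵥ nn x (ad y ψ) =
      G ψ y y + (G ψ x x - 2 * K2 ψ x y) := by
  have e0 : ψ ⬝ᵥ nn y (nn x ψ) = K2 ψ x y := by
    rw [← nn_dot, dotProduct_comm]; rfl
  have h1 : mm x (a y ψ) ⬝ᵥ mm x (a y ψ) = G ψ y y - K2 ψ x y := by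
    have e1 : a y ψ ⬝ᵥ (nn x (a y ψ) + mm x (a y ψ)) = G ψ y y := by rw [nn_add_mm]; rfl
    have e2 : a y ψ ⬝ᵥ nn x (a y ψ) = K2 ψ x y := by
      rw [nn_a x y hxy, a_dot, ad_a_self, e0]
    rw [mm_dot, mm_mm]
    rw [dotProduct_add, e2] at e1
    linarith
  have h2 : nn x (ad y ψ) ⬝ᵥ nn x (ad y ψ) = G ψ x x - K2 ψ x y := by
    rw [nn_dot, nn_nn, nn_ad' x y hxy, ad_dot, a_ad_self]
    have e1 : ψ ⬝ᵥ (nn y (nn x ψ) + mm y (nn x ψ)) = G ψ x x := by rw [nn_add_mm, G_self]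
    rw [dotProduct_add, e0] at e1
    linarith
  rw [h1, h2]; ring

/-- **The sum-of-squares inequality at one site.** -/
theorem site (ψ : Finset V → ℝ) (x : V) (c : V → ℝ) (hc : c x = 0) (ρ : ℝ) :
    0 ≤ (1 - ρ) ^ 2 * G ψ x x + ρ ^ 2 * (ψ ⬝ᵥ ψ - G ψ x x) - 2 * ∑ y, c y * G ψ x y +
      ∑ y, ∑ z, c y * c z * G ψ y z + ∑ y, c y ^ 2 * (G ψ x x - 2 * K2 ψ x y) := by
  set B : Finset V → ℝ := ∑ y, c y • a y ψ with hB
  set B' : Finset V → ℝ := ∑ y, c y • ad y ψ with hB'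
  have hu : 0 ≤ ((1 - ρ) • a x ψ - mm x B) ⬝ᵥ ((1 - ρ) • a x ψ - mm x B) := dot_self_nonneg _
  have hv : 0 ≤ (ρ • ad x ψ - nn x B') ⬝ᵥ (ρ • ad x ψ - nn x B') := dot_self_nonneg _
  have h1 : a x ψ ⬝ᵥ mm x B = ∑ y, c y * G ψ x y := by
    rw [← mm_dot, mm_a, hB, dotProduct_sum]
    refine sum_congr rfl fun y _ => ?_
    rw [dotProduct_smul, smul_eq_mul]; rfl
  have h2 : ad x ψ ⬝ᵥ nn x B' = ∑ y, c y * G ψ x y := by
    rw [← nn_dot, nn_ad, hB', dotProduct_sum]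
    refine sum_congr rfl fun y _ => ?_
    rw [dotProduct_smul, smul_eq_mul]
    by_cases h : x = y
    · rw [← h, hc]; ring
    · rw [ad_dot, a_ad x y h, ← a_dot, dotProduct_comm]; rfl
  have h3 : ad x ψ ⬝ᵥ ad x ψ = ψ ⬝ᵥ ψ - G ψ x x := by
    rw [ad_dot, a_ad_self]
    have e1 : ψ ⬝ᵥ (nn x ψ + mm x ψ) = ψ ⬝ᵥ ψ := by rw [nn_add_mm]
    rw [dotProduct_add, ← G_self] at e1
    linarith
  have h4 : mm x B ⬝ᵥ mm x B + nn x B' ⬝ᵥ nn x B' =
      ∑ y, ∑ z, c y * c z * G ψ y z + ∑ y, c y ^ 2 * (G ψ x x - 2 * K2 ψ x y) := by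
    have e1 : mm x B ⬝ᵥ mm x B + nn x B' ⬝ᵥ nn x B' = ∑ y, ∑ z, c y * c z *
        (mm x (a y ψ) ⬝ᵥ mm x (a z ψ) + nn x (ad y ψ) ⬝ᵥ nn x (ad z ψ)) := by
      have e2 : mm x B = ∑ y, c y • mm x (a y ψ) := by
        rw [hB, map_sum]; exact sum_congr rfl fun y _ => by rw [map_smul]
      have e3 : nn x B' = ∑ y, c y • nn x (ad y ψ) := by
        rw [hB', map_sum]; exact sum_congr rfl fun y _ => by rw [map_smul]
      rw [e2, e3, sum_dotProduct, sum_dotProduct, ← sum_add_distrib]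
      refine sum_congr rfl fun y _ => ?_
      rw [dotProduct_sum, dotProduct_sum, ← sum_add_distrib]
      refine sum_congr rfl fun z _ => ?_
      rw [smul_dotProduct, dotProduct_smul, smul_dotProduct, dotProduct_smul]
      simp only [smul_eq_mul]; ring
    rw [e1, ← sum_add_distrib]
    refine sum_congr rfl fun y _ => ?_
    by_cases hy : x = y
    · subst hy; simp [hc]
    · have e4 : c y ^ 2 * (G ψ x x - 2 * K2 ψ x y) =
          ∑ z, if y = z then c y * c z * (G ψ x x - 2 * K2 ψ x y) else 0 := by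
        rw [sum_ite_eq, if_pos (mem_univ _)]; ring
      rw [e4, ← sum_add_distrib]
      refine sum_congr rfl fun z _ => ?_
      by_cases hz : x = z
      · subst hz; simp [hc]
      · by_cases hyz : y = z
        · subst hyz
          rw [mixed_eq ψ x y hy, if_pos rfl]; ring
        · rw [mixed_ne ψ x y z hy hz hyz, if_neg hyz, add_zero]
  simp only [sub_dotProduct, dotProduct_sub, smul_dotProduct, dotProduct_smul, smul_eq_mul] at hu hv
  have h5 : mm x B ⬝ᵥ a x ψ = ∑ y, c y * G ψ x y := by rw [dotProduct_comm, h1]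
  have h6 : nn x B' ⬝ᵥ ad x ψ = ∑ y, c y * G ψ x y := by rw [dotProduct_comm, h2]
  have h7 : a x ψ ⬝ᵥ a x ψ = G ψ x x := rfl
  rw [h1, h5, h7] at hu
  rw [h2, h6, h3] at hv
  set A := ∑ y, c y * G ψ x y
  nlinarith [hu, hv, h4]

/-- the exchange inequality -/
lemma two_G_le (ψ : Finset V → ℝ) (y z : V) (hyz : y ≠ z) :
    2 * G ψ y z ≤ G ψ y y + G ψ z z - 2 * K2 ψ y z := by
  have h0 : 0 ≤ (mm z (a y ψ) - mm y (a z ψ)) ⬝ᵥ (mm z (a y ψ) - mm y (a z ψ)) :=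
    dot_self_nonneg _
  have e0 : ∀ x y : V, x ≠ y → mm x (a y ψ) ⬝ᵥ mm x (a y ψ) = G ψ y y - K2 ψ x y := by
    intro x y hxy
    have e1 : a y ψ ⬝ᵥ (nn x (a y ψ) + mm x (a y ψ)) = G ψ y y := by rw [nn_add_mm]; rfl
    have e2 : a y ψ ⬝ᵥ nn x (a y ψ) = K2 ψ x y := by
      rw [nn_a x y hxy, a_dot, ad_a_self, ← nn_dot, dotProduct_comm]; rfl
    rw [mm_dot, mm_mm]
    rw [dotProduct_add, e2] at e1
    linarith
  have mma : ∀ φ : Finset V → ℝ, mm y (mm z φ) = mm z (mm y φ) := by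
    intro φ
    ext S; simp only [mm_apply]
    by_cases h1 : y ∈ S <;> by_cases h2 : z ∈ S <;> simp [h1, h2]
  have e3 : mm z (a y ψ) ⬝ᵥ mm y (a z ψ) = G ψ y z := by
    rw [← mm_dot, mma, mm_a, mm_dot, mm_a]; rfl
  have e4 : mm y (a z ψ) ⬝ᵥ mm z (a y ψ) = G ψ y z := by rw [dotProduct_comm, e3]
  simp only [sub_dotProduct, dotProduct_sub] at h0
  rw [e0 z y hyz.symm, e0 y z hyz, e3, e4, K2_comm ψ z y] at h0
  linarith

end Run7.h259.BEC
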