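import Pool.Agent.Run7.h259.BEC.Final

/-!
# The uniform state
-/

set_option autoImplicit false
set_option linter.unusedSectionVars false

noncomputable section

namespace Run7.h259.BEC

open Finset Matrix

variable {V : Type*} [Fintype V] [DecidableEq V]

/-- the uniform state of `N` particles -/
def unif (V : Type*) [Fintype V] (N : ℕ) : Finset V → ℝ :=
  fun S => if S.card = N then 1 / Real.sqrt ((Fintype.card V).choose N) else 0

lemma unif_part (N : ℕ) : Part N (unif V N) := by
  intro S hS
  unfold unif; rw [if_neg hS]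

lemma unif_mul (N : ℕ) (S : Finset V) :
    unif V N S * unif V N S = if S.card = N then 1 / ((Fintype.card V).choose N : ℝ) else 0 := by
  unfold unif
  split_ifs with h
  · rw [div_mul_div_comm, Real.mul_self_sqrt (by positivity), one_mul]
  · simp

lemma unif_norm (N : ℕ) (hN : N ≤ Fintype.card V) : unif V N ⬝ᵥ unif V N = 1 := by
  unfold dotProduct
  simp_rw [unif_mul N]
  rw [← sum_filter, sum_const, nsmul_eq_mul]
  have h1 : (univ.filter fun S : Finset V => S.card = N).card = (Fintype.card V).choose N := by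
    rw [← card_univ (α := V), ← card_powersetCard]
    congr 1
    ext S
    simp [mem_powersetCard]
  rw [h1]
  have : ((Fintype.card V).choose N : ℝ) ≠ 0 := by
    exact_mod_cast (Nat.choose_pos hN).ne'
  field_simp

lemma unif_G (N : ℕ) (hN : N + 1 ≤ Fintype.card V) (x y : V) (hxy : x ≠ y) :
    G (unif V (N + 1)) x y =
      ((Fintype.card V - 2).choose N : ℝ) / ((Fintype.card V).choose (N + 1)) := by
  unfold G dotProduct
  have h1 : ∀ S, a x (unif V (N + 1)) S * a y (unif V (N + 1)) S =
      if S ∈ powersetCard N ((univ.erase x).erase y) then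
        1 / ((Fintype.card V).choose (N + 1) : ℝ) else 0 := by
    intro S
    have e0 : S ∈ powersetCard N ((univ.erase x).erase y) ↔
      S ⊆ (univ.erase x).erase y ∧ S.card = N := mem_powersetCard
    rw [a_apply, a_apply]
    by_cases hx : x ∈ S
    · rw [if_pos hx, zero_mul, if_neg]
      intro h0
      obtain ⟨h1, -⟩ := e0.1 h0
      exact (mem_erase.1 (mem_erase.1 (h1 hx)).2).1 rfl
    · by_cases hy : y ∈ S
      · rw [if_pos hy, mul_zero, if_neg]
        intro h0
        obtain ⟨h1, -⟩ := e0.1 h0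
        exact (mem_erase.1 (h1 hy)).1 rfl
      · rw [if_neg hx, if_neg hy]
        have e1 : (insert x S).card = S.card + 1 := card_insert_of_notMem hx
        have e2 : (insert y S).card = S.card + 1 := card_insert_of_notMem hy
        have e3 : unif V (N + 1) (insert x S) = unif V (N + 1) (insert y S) := by
          unfold unif; rw [e1, e2]
        rw [e3, unif_mul (N + 1), e2]
        have e4 : S ⊆ (univ.erase x).erase y := by
          intro z hz
          rw [mem_erase, mem_erase]
          exact ⟨fun h => hy (h ▸ hz), fun h => hx (h ▸ hz), mem_univ _⟩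
        by_cases hS : S.card = N
        · rw [if_pos (by omega), if_pos (e0.2 ⟨e4, hS⟩)]
        · rw [if_neg (by omega), if_neg fun h => hS (e0.1 h).2]
  simp_rw [h1]
  rw [← sum_filter, sum_const, nsmul_eq_mul]
  have h2 : (univ.filter fun S => S ∈ powersetCard N ((univ.erase x).erase y)).card =
      (Fintype.card V - 2).choose N := by
    rw [filter_mem_eq_inter, univ_inter, card_powersetCard]
    congr 1
    rw [card_erase_of_mem, card_erase_of_mem (mem_univ _), card_univ]
    · omega
    · rw [mem_erase]; exact ⟨hxy.symm, mem_univ _⟩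
  rw [h2]; ring

lemma unif_K2 (N : ℕ) (hN : N + 2 ≤ Fintype.card V) (x y : V) (hxy : x ≠ y) :
    K2 (unif V (N + 2)) x y =
      ((Fintype.card V - 2).choose N : ℝ) / ((Fintype.card V).choose (N + 2)) := by
  unfold K2 dotProduct
  have h1 : ∀ S, nn x (unif V (N + 2)) S * nn y (unif V (N + 2)) S =
      if x ∈ S ∧ y ∈ S ∧ S.card = N + 2 then
        1 / ((Fintype.card V).choose (N + 2) : ℝ) else 0 := by
    intro S
    rw [nn_apply, nn_apply]
    by_cases hx : x ∈ S
    · by_cases hy : y ∈ S
      · rw [if_pos hx, if_pos hy, unif_mul (N + 2)]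
        simp [hx, hy]
      · simp [hy]
    · simp [hx]
  simp_rw [h1]
  rw [← sum_filter, sum_const, nsmul_eq_mul]
  have h2 : (univ.filter fun S : Finset V => x ∈ S ∧ y ∈ S ∧ S.card = N + 2).card =
      (Fintype.card V - 2).choose N := by
    have h3 : (powersetCard N ((univ.erase x).erase y)).card = (Fintype.card V - 2).choose N := by
      rw [card_powersetCard]
      congr 1
      rw [card_erase_of_mem, card_erase_of_mem (mem_univ _), card_univ]
      · omega
      · rw [mem_erase]; exact ⟨hxy.symm, mem_univ _⟩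
    rw [← h3]
    refine card_nbij' (fun S => (S.erase x).erase y) (fun T => insert x (insert y T)) ?_ ?_ ?_ ?_
    · intro S hS
      simp only [mem_coe, mem_filter, mem_univ, true_and] at hS
      obtain ⟨hx, hy, hc⟩ := hS
      simp only [mem_coe, mem_powersetCard]
      constructor
      · intro z hz
        simp only [mem_erase] at hz ⊢
        exact ⟨hz.1, hz.2.1, mem_univ _⟩
      · rw [card_erase_of_mem (mem_erase.2 ⟨hxy.symm, hy⟩), card_erase_of_mem hx, hc]
        omega
    · intro T hT
      simp only [mem_coe, mem_powersetCard] at hT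
      obtain ⟨hT1, hT2⟩ := hT
      have hy : y ∉ T := fun h => (mem_erase.1 (hT1 h)).1 rfl
      have hx : x ∉ T := fun h => (mem_erase.1 (mem_erase.1 (hT1 h)).2).1 rfl
      have hx' : x ∉ insert y T := by simp [hx, hxy]
      simp only [mem_coe, mem_filter, mem_univ, true_and]
      refine ⟨by simp, by simp, ?_⟩
      rw [card_insert_of_notMem hx', card_insert_of_notMem hy, hT2]
    · intro S hS
      simp only [mem_coe, mem_filter, mem_univ, true_and] at hS
      obtain ⟨hx, hy, hc⟩ := hS
      simp only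
      rw [insert_erase (mem_erase.2 ⟨hxy.symm, hy⟩), insert_erase hx]
    · intro T hT
      simp only [mem_coe, mem_powersetCard] at hT
      obtain ⟨hT1, hT2⟩ := hT
      have hy : y ∉ T := fun h => (mem_erase.1 (hT1 h)).1 rfl
      have hx : x ∉ T := fun h => (mem_erase.1 (mem_erase.1 (hT1 h)).2).1 rfl
      have hx' : x ∉ insert y T := by simp [hx, hxy]
      simp only
      rw [erase_insert hx', erase_insert hy]
  rw [h2]; ring

/-- hopping expectation of the uniform state -/
lemma unif_G_ge (N n : ℕ) (hn : n = Fintype.card V) (hn2 : 2 ≤ n) (hN1 : 1 ≤ N) (hN : N ≤ n)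
    (x y : V) (hxy : x ≠ y) :
    (N : ℝ) * (1 - N / n) / n ≤ G (unif V N) x y := by
  obtain ⟨k, rfl⟩ : ∃ k, N = k + 1 := ⟨N - 1, by omega⟩
  rw [unif_G k (by omega) x y hxy, ← hn]
  obtain ⟨m, rfl⟩ : ∃ m, n = m + 2 := ⟨n - 2, by omega⟩
  have h1 : (m + 2 - 2) = m := by omega
  rw [h1]
  have e1 : (m + 2) * (m + 1).choose k = (m + 2).choose (k + 1) * (k + 1) :=
    Nat.add_one_mul_choose_eq (m + 1) k
  have e2 : m.choose k * (m + 1) = (m + 1).choose k * (m + 1 - k) := Nat.choose_mul_succ_eq m k
  have hc : 0 < (m + 2).choose (k + 1) := Nat.choose_pos hN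
  have e1' : ((m : ℝ) + 2) * ((m + 1).choose k : ℝ) = ((m + 2).choose (k + 1) : ℝ) * (k + 1) := by
    exact_mod_cast e1
  have e2' : (m.choose k : ℝ) * (m + 1) = ((m + 1).choose k : ℝ) * (m + 1 - k) := by
    have : ((m + 1 - k : ℕ) : ℝ) = (m : ℝ) + 1 - k := by
      rw [Nat.cast_sub (by omega)]; push_cast; ring
    rw [← this]; exact_mod_cast e2
  have hc' : (0 : ℝ) < ((m + 2).choose (k + 1) : ℝ) := by exact_mod_cast hc
  have hm : (0 : ℝ) < (m : ℝ) + 1 := by positivity
  have hk : (k : ℝ) ≤ m + 1 := by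
    have : k ≤ m + 1 := by omega
    exact_mod_cast this
  rw [le_div_iff₀ hc']
  push_cast
  have e3 : (m.choose k : ℝ) = ((m + 2).choose (k + 1) : ℝ) * (k + 1) / (m + 2) * (m + 1 - k) / (m + 1) := by
    have e4 : ((m + 1).choose k : ℝ) = ((m + 2).choose (k + 1) : ℝ) * (k + 1) / (m + 2) := by
      rw [← e1']; field_simp
    rw [← e4, ← e2']; field_simp
  rw [e3]
  have e5 : ((k : ℝ) + 1) * (1 - (k + 1) / (m + 2)) / (m + 2) * ((m + 2).choose (k + 1) : ℝ) =
      ((m + 2).choose (k + 1) : ℝ) * (k + 1) / (m + 2) * (m + 1 - k) / (m + 2) := by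
    field_simp; ring
  rw [e5]
  have h0 : 0 ≤ ((m + 2).choose (k + 1) : ℝ) * (k + 1) / (m + 2) * (m + 1 - k) := by
    have : 0 ≤ (m : ℝ) + 1 - k := by linarith
    positivity
  exact div_le_div_of_nonneg_left h0 hm (by linarith)

/-- pair density of the uniform state -/
lemma unif_K2_le (N n : ℕ) (hn : n = Fintype.card V) (hn2 : 2 ≤ n) (hN : N ≤ n)
    (x y : V) (hxy : x ≠ y) : K2 (unif V N) x y ≤ (N / n) ^ 2 := by
  rcases Nat.lt_or_ge N 2 with h2 | h2
  · have : K2 (unif V N) x y = 0 := by
      unfold K2 dotProduct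
      refine sum_eq_zero fun S _ => ?_
      rw [nn_apply, nn_apply]
      by_cases hx : x ∈ S
      · by_cases hy : y ∈ S
        · have h3 : 2 ≤ S.card := by
            rw [← card_pair hxy]
            exact card_le_card (by intro z hz; simp at hz; rcases hz with rfl | rfl <;> assumption)
          have : unif V N S = 0 := unif_part N S (by omega)
          simp [this]
        · simp [hy]
      · simp [hx]
    rw [this]; positivity
  · obtain ⟨k, rfl⟩ : ∃ k, N = k + 2 := ⟨N - 2, by omega⟩
    rw [unif_K2 k (by omega) x y hxy, ← hn]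
    obtain ⟨m, rfl⟩ : ∃ m, n = m + 2 := ⟨n - 2, by omega⟩
    have h1 : (m + 2 - 2) = m := by omega
    rw [h1]
    have e1 : (m + 2) * (m + 1).choose (k + 1) = (m + 2).choose (k + 2) * (k + 2) :=
      Nat.add_one_mul_choose_eq (m + 1) (k + 1)
    have e2 : (m + 1) * m.choose k = (m + 1).choose (k + 1) * (k + 1) :=
      Nat.add_one_mul_choose_eq m k
    have hc : 0 < (m + 2).choose (k + 2) := Nat.choose_pos hN
    have e1' : ((m : ℝ) + 2) * ((m + 1).choose (k + 1) : ℝ) =
      ((m + 2).choose (k + 2) : ℝ) * (k + 2) := by exact_mod_cast e1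
    have e2' : ((m : ℝ) + 1) * (m.choose k : ℝ) = ((m + 1).choose (k + 1) : ℝ) * (k + 1) := by
      exact_mod_cast e2
    have hc' : (0 : ℝ) < ((m + 2).choose (k + 2) : ℝ) := by exact_mod_cast hc
    have hk : (k : ℝ) ≤ m := by
      have : k ≤ m := by omega
      exact_mod_cast this
    rw [div_le_iff₀ hc']
    have e3 : (m.choose k : ℝ) = ((m + 2).choose (k + 2) : ℝ) * ((k + 2) / (m + 2)) *
        ((k + 1) / (m + 1)) := by
      have e4 : ((m + 1).choose (k + 1) : ℝ) = ((m + 2).choose (k + 2) : ℝ) * (k + 2) / (m + 2) := by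
        rw [← e1']; field_simp
      have e5 : (m.choose k : ℝ) = ((m + 1).choose (k + 1) : ℝ) * (k + 1) / (m + 1) := by
        rw [← e2']; field_simp
      rw [e5, e4]; ring
    rw [e3]
    push_cast
    have e6 : ((k : ℝ) + 1) / (m + 1) ≤ (k + 2) / (m + 2) := by
      rw [div_le_div_iff₀ (by positivity) (by positivity)]; nlinarith
    have e7 : 0 ≤ ((m + 2).choose (k + 2) : ℝ) * ((k + 2) / (m + 2)) := by positivity
    calc ((m + 2).choose (k + 2) : ℝ) * ((k + 2) / (m + 2)) * ((k + 1) / (m + 1)) ≤
        ((m + 2).choose (k + 2) : ℝ) * ((k + 2) / (m + 2)) * ((k + 2) / (m + 2)) :=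
          mul_le_mul_of_nonneg_left e6 e7
      _ = ((k + 2) / (m + 2)) ^ 2 * ((m + 2).choose (k + 2) : ℝ) := by ring

end Run7.h259.BEC
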